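import Mathlib
import Pool.Agent.Y298.CA.Stm
import Pool.Agent.Y298.CA.Stm2

/-!
# Similarity of the Multibrot set and the Julia set at parameters with a Lyapunov exponent: statements

Project SM, helper253. `f d c z = z ^ d + c`, `zz d c j = f^j (c)`, `Pd d c j = |(f^j)' (c)|`,
`bb d c j = 1 / (f^j)' (c)`.
-/

set_option autoImplicit false

open Set Filter Metric Topology

namespace Pool.Agent.N253.SM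

open Pool.Agent.TH279.MD Pool.Agent.Y298.SH Pool.Agent.Y298.SH.CD Pool.Agent.Y298.CA

/-- Schwarz-Pick for functions without zeros. -/
def S_ZF : Prop := ∀ (a : ℂ) (τ M : ℝ) (h : ℂ → ℂ), 0 < τ → DifferentiableOn ℂ h (ball a τ) →
  (∀ z ∈ ball a τ, h z ≠ 0) → (∀ z ∈ ball a τ, ‖h z‖ ≤ M) →
  τ * ‖deriv h a‖ ≤ 2 * ‖h a‖ * (1 + Real.log (M / ‖h a‖))

/-- Schottky: two consecutive functions without zeros. -/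
def S_SCHT : Prop := ∀ (d : ℕ) (c₀ : ℂ), 2 ≤ d → c₀ ≠ 0 → ∃ M : ℝ, 1 ≤ M ∧
  ∀ (a : ℂ) (τ : ℝ) (γ h : ℂ → ℂ), 0 < τ → DifferentiableOn ℂ γ (ball a τ) →
  DifferentiableOn ℂ h (ball a τ) → (∀ z ∈ ball a τ, ‖γ z - c₀‖ ≤ ‖c₀‖ / 2) →
  (∀ z ∈ ball a τ, h z ≠ 0) → (∀ z ∈ ball a τ, h z ^ d + γ z ≠ 0) → ‖h a‖ ≤ 4 →
  ∀ z ∈ ball a (τ / 2), ‖h z‖ ≤ M

/-- Expansion away from the critical point, with a constant which does not depend on the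
neighbourhood of the critical point if the orbit segment ends there. -/
def S_FREE : Prop := ∀ (d : ℕ) (χ : ℝ) (c₀ : ℂ), 2 ≤ d → Lyap d χ c₀ →
  ∃ ρ₀ Γ : ℝ, 0 < ρ₀ ∧ 1 ≤ Γ ∧ ∀ δ : ℝ, 0 < δ → δ ≤ ρ₀ →
  ∃ κ η e : ℝ, 0 < κ ∧ 0 < η ∧ 0 < e ∧ ∀ c : ℂ, ‖c - c₀‖ ≤ e → ∀ (y : ℂ) (n : ℕ),
    (∀ j < n, 2 * δ ≤ ‖(f d c)^[j] y‖) → (∀ j ≤ n, ‖(f d c)^[j] y‖ ≤ 4) →
    κ * Real.exp (η * n) ≤ ‖deriv ((f d c)^[n]) y‖ ∧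
    (‖(f d c)^[n] y‖ ≤ 2 * δ → Real.exp (η * n) ≤ Γ * ‖deriv ((f d c)^[n]) y‖)

/-- The passage near the critical point: the loss of derivative is recovered, with a gain. -/
def S_BND : Prop := ∀ (d : ℕ) (χ : ℝ) (c₀ : ℂ), 2 ≤ d → Lyap d χ c₀ →
  ∃ κ η K : ℝ, 0 < κ ∧ 0 < η ∧ 1 ≤ K ∧ ∀ Γ : ℝ, 1 ≤ Γ → ∃ δ₁ : ℝ, 0 < δ₁ ∧ δ₁ ≤ 1 / 4 ∧
  ∀ (c y : ℂ), y ≠ 0 → ‖y‖ ≤ 2 * δ₁ → ‖c - c₀‖ ≤ ‖y‖ ^ d → ∃ k : ℕ,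
    ((k : ℝ) + 1 ≤ K * (1 + Real.log (1 / ‖y‖))) ∧
    Γ * Real.exp (η * (k + 1 : ℕ)) ≤ ‖deriv ((f d c)^[k + 1]) y‖ ∧
    ∀ j < k, κ * ‖y‖ ^ (d - 1) ≤ ‖deriv ((f d c)^[j + 1]) y‖ ∧
      κ * Real.sqrt ‖y‖ ≤ ‖(f d c)^[j + 1] y‖

/-- Expansion along orbits which pass the critical point at distance at least
`|c - c₀| ^ (1 / d)`: either the time `n` is free, or it belongs to the passage which begins at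
the time `i`. -/
def S_EXP : Prop := ∀ (d : ℕ) (χ : ℝ) (c₀ : ℂ), 2 ≤ d → Lyap d χ c₀ →
  ∃ κ η K r₀ : ℝ, 0 < κ ∧ κ ≤ 1 ∧ 0 < η ∧ 1 ≤ K ∧ 0 < r₀ ∧ ∀ (c : ℂ) (r : ℝ) (y : ℂ) (n : ℕ),
    0 < r → r ≤ r₀ → ‖c - c₀‖ ≤ r → (∀ j ≤ n, ‖(f d c)^[j] y‖ ≤ 4) →
    (∀ j < n, r ≤ ‖(f d c)^[j] y‖ ^ d) →
    κ * Real.exp (η * n) ≤ ‖deriv ((f d c)^[n]) y‖ ∨
    ∃ i < n, κ * Real.exp (η * i) ≤ ‖deriv ((f d c)^[i]) y‖ ∧ ‖(f d c)^[i] y‖ ≤ 1 ∧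
      (n : ℝ) - i ≤ K * (1 + Real.log (1 / ‖(f d c)^[i] y‖)) ∧
      κ * ‖(f d c)^[i] y‖ ^ (d - 1) * ‖deriv ((f d c)^[i]) y‖ ≤ ‖deriv ((f d c)^[n]) y‖ ∧
      κ * Real.sqrt ‖(f d c)^[i] y‖ ≤ ‖(f d c)^[n] y‖

/-- Propagation of the difference of two orbits during the passage near the critical value. -/
def S_FWD : Prop := ∀ (d : ℕ) (C₁ lam θ B Ca : ℝ), 2 ≤ d → 1 < θ → PC d C₁ lam θ B Ca →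
  ∃ C : ℝ, 1 ≤ C ∧ ∀ c₀ : ℂ, CEp d C₁ lam c₀ → ∀ (s : ℝ) (k n : ℕ), 0 < s → k ≤ n →
  (∀ j < n, B * θ ^ j * s * Pd d c₀ j ≤ ‖zz d c₀ j‖) → ∀ c c' x x' : ℂ, ‖c - c₀‖ ≤ s →
  ‖c' - c₀‖ ≤ s → x ∈ ball c s → x' ∈ ball c' s →
  ‖(f d c)^[n] x - (f d c')^[n] x'‖ ≤ C * Pd d c₀ n *
    (‖(f d c)^[k] x - (f d c')^[k] x'‖ / Pd d c₀ k +
      ‖c - c'‖ * ∑ i ∈ Finset.Ico k n, 1 / Pd d c₀ (i + 1))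

/-- Second order Taylor estimate. -/
def S_TAY : Prop := ∀ (G : ℂ → ℂ) (a : ℂ) (R M : ℝ), 0 < R → DifferentiableOn ℂ G (ball a R) →
  (∀ z ∈ ball a R, ‖G z - G a‖ ≤ M) → ∀ z ∈ ball a (R / 2),
  ‖G z - G a - deriv G a * (z - a)‖ ≤ 4 * M * (‖z - a‖ / R) ^ 2

/-- **Linearisation.** With `L = ∑ 1 / (f^k)' (c₀)` and `n = n(r)`: the points `c₀ + L (c - c₀)` and
`c` are at the same place after `n` steps of `f d c₀` and of `f d c`, up to `r ^ (1/2 - ε)`; the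
derivatives are at least `r ^ (ε - 1)`. -/
def S_LIN : Prop := ∀ (d : ℕ) (χ : ℝ) (c₀ : ℂ), 2 ≤ d → Lyap d χ c₀ → ∀ ε : ℝ, 0 < ε → ε < 1 / 2 →
  ∃ r₀ : ℝ, 0 < r₀ ∧ ∀ r : ℝ, 0 < r → r ≤ r₀ → ∃ n : ℕ,
    (∀ c, ‖c - c₀‖ ≤ r →
      ‖(f d c₀)^[n] (c₀ + (∑' k, bb d c₀ k) * (c - c₀)) - (f d c)^[n] c‖ ≤ r ^ (1 / 2 - ε)) ∧
    (∀ c, ‖c - c₀‖ ≤ 2 * r → r ^ (ε - 1) ≤ ‖deriv (fun t => (f d t)^[n] t) c‖ ∧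
      ‖(f d c)^[n] c‖ ≤ 3) ∧
    (∀ x, ‖x - c₀‖ ≤ (2 + 2 * ‖∑' k, bb d c₀ k‖) * r → r ^ (ε - 1) ≤ ‖deriv ((f d c₀)^[n]) x‖ ∧
      ‖(f d c₀)^[n] x‖ ≤ 3)

/-- **The main lemma.** A family `h` of points and `γ` of parameters: if the orbits of `h z` for the
parameters `γ z` never meet the critical point, then the points near `h a` escape for all
parameters near `c₀`. -/
def S_Z : Prop := ∀ (d : ℕ) (χ : ℝ) (c₀ : ℂ), 2 ≤ d → Lyap d χ c₀ → ∀ ε : ℝ, 0 < ε →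
  ε < 1 / (4 * d) → ∃ r₀ : ℝ, 0 < r₀ ∧ ∀ (r s : ℝ), 0 < r → r ≤ r₀ →
  r ^ (1 / (d : ℝ) - ε) ≤ s → s ≤ r₀ →
  ∀ (a : ℂ) (τ : ℝ) (γ h : ℂ → ℂ) (c y : ℂ), 0 < τ → DifferentiableOn ℂ γ (ball a τ) →
  DifferentiableOn ℂ h (ball a τ) → (∀ z ∈ ball a τ, ‖γ z - c₀‖ ≤ r) → ‖c - c₀‖ ≤ r →
  s ≤ τ * ‖deriv h a‖ → ‖deriv γ a‖ ≤ r ^ (1 - ε) * ‖deriv h a‖ → ‖h a - y‖ ≤ s ^ (1 + ε) →
  (∀ n, ‖(f d c)^[n] y‖ ≤ 2) → ∃ j, ∃ z ∈ ball a τ, (f d (γ z))^[j] (h z) = 0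

end Pool.Agent.N253.SM
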