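import Mathlib

/-!
# The main lemma of project SM: the estimates for the sequences
-/

set_option autoImplicit false

open Set Filter Metric Topology

namespace Pool.Agent.N253.SM

/-- small powers -/
theorem small_pow (C p : ℝ) (hp : 0 < p) : ∃ s₀ : ℝ, 0 < s₀ ∧ s₀ < 1 ∧
    ∀ s : ℝ, 0 < s → s ≤ s₀ → C * s ^ p ≤ 1 := by
  have h1 : Tendsto (fun s : ℝ => C * s ^ p) (𝓝[>] 0) (𝓝 (C * 0)) := by
    refine Tendsto.const_mul C ?_
    have h2 : Tendsto (fun s : ℝ => s ^ p) (𝓝 0) (𝓝 ((0 : ℝ) ^ p)) :=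
      (Real.continuousAt_rpow_const 0 p (Or.inr hp.le)).tendsto
    rw [Real.zero_rpow hp.ne'] at h2
    exact h2.mono_left nhdsWithin_le_nhds
  rw [mul_zero] at h1
  have h3 := h1.eventually (gt_mem_nhds (one_pos))
  rw [eventually_nhdsWithin_iff, Metric.eventually_nhds_iff] at h3
  obtain ⟨e, he, h4⟩ := h3
  refine ⟨min (e / 2) (1 / 2), by positivity, by
    have := min_le_right (e / 2) (1 / 2 : ℝ); linarith, ?_⟩
  intro s hs hse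
  refine (h4 (y := s) ?_ hs).le
  rw [Real.dist_eq, sub_zero, abs_of_pos hs]
  have := min_le_left (e / 2) (1 / 2 : ℝ)
  linarith

/-- the zero-free estimate gives a lower bound -/
theorem zf_lower (M β x y : ℝ) (hM : 1 ≤ M) (hβ : 0 < β) (hβ1 : β ≤ 1 / 2) (hx : 0 < x)
    (hxM : x ≤ M) (hy : 0 < y) (h : y ≤ x * (1 + Real.log (M / x))) :
    y ≤ x * (1 + (M / x) ^ β / β) ∧ y ^ 2 ≤ x * (M * (1 + 1 / β) ^ 2) := by
  have h1 : 1 ≤ M / x := by rwa [one_le_div hx]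
  have h2 : Real.log (M / x) ≤ (M / x) ^ β / β := Real.log_le_rpow_div (by positivity) hβ
  have h3 : y ≤ x * (1 + (M / x) ^ β / β) := by
    refine h.trans ?_
    gcongr
  refine ⟨h3, ?_⟩
  have h4 : (M / x) ^ β ≤ Real.sqrt (M / x) := by
    rw [Real.sqrt_eq_rpow]
    exact Real.rpow_le_rpow_of_exponent_le h1 hβ1
  have h5 : 1 ≤ Real.sqrt (M / x) := by
    rw [Real.one_le_sqrt]; exact h1
  have h6 : y ≤ x * (Real.sqrt (M / x) * (1 + 1 / β)) := by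
    refine h3.trans ?_
    gcongr
    have : (M / x) ^ β / β ≤ Real.sqrt (M / x) / β := by gcongr
    calc 1 + (M / x) ^ β / β ≤ Real.sqrt (M / x) + Real.sqrt (M / x) / β := add_le_add h5 this
      _ = _ := by ring
  have h7 : y ^ 2 ≤ (x * (Real.sqrt (M / x) * (1 + 1 / β))) ^ 2 := by gcongr
  refine h7.trans (le_of_eq ?_)
  have h8 : Real.sqrt (M / x) ^ 2 = M / x := Real.sq_sqrt (by positivity)
  calc (x * (Real.sqrt (M / x) * (1 + 1 / β))) ^ 2 =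
      x ^ 2 * Real.sqrt (M / x) ^ 2 * (1 + 1 / β) ^ 2 := by ring
    _ = _ := by rw [h8]; field_simp

theorem norm_pow_sub_le' (a b : ℂ) (n : ℕ) (θ : ℝ) (hθ : 0 ≤ θ) (hab : ‖b - a‖ ≤ θ * ‖a‖) :
    ‖b ^ n - a ^ n‖ ≤ ‖a‖ ^ n * ((1 + θ) ^ n - 1) := by
  induction n with
  | zero => simp
  | succ n ih =>
    have h1 : b ^ (n + 1) - a ^ (n + 1) = b * (b ^ n - a ^ n) + (b - a) * a ^ n := by ring
    have hb : ‖b‖ ≤ (1 + θ) * ‖a‖ := by
      calc ‖b‖ = ‖(b - a) + a‖ := by ring_nf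
        _ ≤ ‖b - a‖ + ‖a‖ := norm_add_le _ _
        _ ≤ θ * ‖a‖ + ‖a‖ := by gcongr
        _ = _ := by ring
    have h1n : 1 ≤ (1 + θ) ^ n := one_le_pow₀ (by linarith)
    rw [h1]
    calc ‖b * (b ^ n - a ^ n) + (b - a) * a ^ n‖
        ≤ ‖b‖ * ‖b ^ n - a ^ n‖ + ‖b - a‖ * ‖a‖ ^ n := by
          refine (norm_add_le _ _).trans ?_
          rw [norm_mul, norm_mul, norm_pow]
      _ ≤ ((1 + θ) * ‖a‖) * (‖a‖ ^ n * ((1 + θ) ^ n - 1)) + θ * ‖a‖ * ‖a‖ ^ n := by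
          gcongr
      _ = _ := by ring

/-- `|b^d - a^d| ≤ d |a|^(d-1) (1+θ)^(d-1) |b - a|` -/
theorem norm_pow_sub_le_mul (a b : ℂ) (d : ℕ) (hd : 1 ≤ d) (θ : ℝ) (hθ : 0 ≤ θ)
    (hab : ‖b - a‖ ≤ θ * ‖a‖) :
    ‖b ^ d - a ^ d‖ ≤ d * ‖a‖ ^ (d - 1) * (1 + θ) ^ (d - 1) * ‖b - a‖ := by
  have hb : ‖b‖ ≤ (1 + θ) * ‖a‖ := by
    calc ‖b‖ = ‖(b - a) + a‖ := by ring_nf
      _ ≤ ‖b - a‖ + ‖a‖ := norm_add_le _ _
      _ ≤ θ * ‖a‖ + ‖a‖ := by gcongr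
      _ = _ := by ring
  have ha : ‖a‖ ≤ (1 + θ) * ‖a‖ := by nlinarith [norm_nonneg a]
  have h1 : b ^ d - a ^ d = (∑ i ∈ Finset.range d, b ^ i * a ^ (d - 1 - i)) * (b - a) :=
    (Commute.all b a).geom_sum₂_mul d |>.symm
  rw [h1, norm_mul]
  gcongr
  calc ‖∑ i ∈ Finset.range d, b ^ i * a ^ (d - 1 - i)‖
      ≤ ∑ i ∈ Finset.range d, ‖b ^ i * a ^ (d - 1 - i)‖ := norm_sum_le _ _
    _ ≤ ∑ i ∈ Finset.range d, ((1 + θ) * ‖a‖) ^ (d - 1) := by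
        apply Finset.sum_le_sum
        intro i hi
        rw [Finset.mem_range] at hi
        rw [norm_mul, norm_pow, norm_pow]
        calc ‖b‖ ^ i * ‖a‖ ^ (d - 1 - i) ≤ ((1 + θ) * ‖a‖) ^ i * ((1 + θ) * ‖a‖) ^ (d - 1 - i) := by
              gcongr
          _ = ((1 + θ) * ‖a‖) ^ (d - 1) := by
              rw [← pow_add]; congr 1; omega
    _ = d * ‖a‖ ^ (d - 1) * (1 + θ) ^ (d - 1) := by
        rw [Finset.sum_const, Finset.card_range, nsmul_eq_mul, mul_pow]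
        ring

end Pool.Agent.N253.SM
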