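import Mathlib
import Pool.Agent.N253.SM.Core

/-!
# The main lemma of project SM: the induction
-/

set_option autoImplicit false

open Set Filter Metric Topology

namespace Pool.Agent.N253.SM

theorem core_num {d : ℕ} (hd : 2 ≤ d) {κ η K M q σ θ Ds e0 u v ρ r s τ : ℝ} {J : ℕ}
    {c c₁ g H : ℂ} {A B D G : ℕ → ℂ}
    (hκ : 0 < κ) (hκ1 : κ ≤ 1) (hη : 0 < η) (hK : 0 ≤ K) (hM : 1 ≤ M) (hq : 0 < q) (hq1 : q ≤ 1)
    (he0 : 0 < e0) (hσ : σ = 4 * e0) (hσq : σ ≤ q) (hθ : θ = σ / q)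
    (hDs : Ds = κ ^ (d + 1) * q ^ (d - 1)) (hu : u = 2 * r / Ds)
    (n4 : (1 + θ) ^ ((d - 1) * J) ≤ 2) (n5 : J * u ≤ e0) (hρ : 0 ≤ ρ)
    (hv : 2 * ((1 + θ) ^ (d - 1) - 1) + ρ / Ds ≤ v) (n6 : J * v ≤ 1 / 2)
    (n7 : σ * (d * 2 ^ d / q) ≤ 1)
    (n8 : ∀ x y : ℝ, 0 < x → x ≤ M → Ds ≤ y → s / 8 * y ≤ x * (1 + Real.log (M / x)) →
      2 * q * y ≤ x)
    (n9 : r ≤ (κ ^ 2 * q) ^ d)
    (n10 : ∀ i : ℕ, (J : ℝ) - K * (1 + Real.log (1 / (κ * q))) ≤ i →
      8 * M / s < κ * Real.exp (η * i))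
    (hr : 0 < r) (hs : 0 < s) (hτ : 0 < τ) (hH : s ≤ τ * ‖H‖)
    (hcc : ‖c₁ - c‖ ≤ 2 * r) (hg : ‖g‖ ≤ ρ * ‖H‖) (hBA : ‖B 0 - A 0‖ ≤ e0)
    (hD0 : D 0 = 1) (hG0 : G 0 = H) (hA : ∀ j, A (j + 1) = A j ^ d + c)
    (hB : ∀ j, B (j + 1) = B j ^ d + c₁) (hD : ∀ j, D (j + 1) = d * A j ^ (d - 1) * D j)
    (hG : ∀ j, G (j + 1) = d * B j ^ (d - 1) * G j + g) (hA2 : ∀ j, ‖A j‖ ≤ 2)
    (hE : ∀ n : ℕ, (∀ j < n, r ≤ ‖A j‖ ^ d) → κ * Real.exp (η * n) ≤ ‖D n‖ ∨
      ∃ i < n, κ * Real.exp (η * i) ≤ ‖D i‖ ∧ ‖A i‖ ≤ 1 ∧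
        (n : ℝ) - i ≤ K * (1 + Real.log (1 / ‖A i‖)) ∧
        κ * ‖A i‖ ^ (d - 1) * ‖D i‖ ≤ ‖D n‖ ∧ κ * Real.sqrt ‖A i‖ ≤ ‖A n‖)
    (hZ : ∀ j, ‖B j‖ ≤ 4 → 0 < ‖B j‖ ∧ ‖B j‖ ≤ M ∧
      τ / 2 * ‖G j‖ ≤ 2 * ‖B j‖ * (1 + Real.log (M / ‖B j‖))) : False := by
  have hHpos : 0 < ‖H‖ := by
    by_contra hcon
    have h1 : ‖H‖ = 0 := le_antisymm (not_lt.mp hcon) (norm_nonneg _)
    rw [h1, mul_zero] at hH
    linarith
  have hσ0 : 0 < σ := by rw [hσ]; positivity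
  have hθ0 : 0 < θ := by rw [hθ]; positivity
  have hDs0 : 0 < Ds := by rw [hDs]; positivity
  have hu0 : 0 < u := by rw [hu]; positivity
  have hdR : (2 : ℝ) ≤ d := by exact_mod_cast hd
  have hDsκ : Ds ≤ κ := by
    rw [hDs]
    calc κ ^ (d + 1) * q ^ (d - 1) ≤ κ ^ (d + 1) * 1 := by
          gcongr
          exact pow_le_one₀ hq.le hq1
      _ ≤ κ ^ 1 * 1 := by
          gcongr 1
          exact pow_le_pow_of_le_one hκ.le hκ1 (by omega)
      _ = κ := by ring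
  have h1θ : 1 ≤ (1 + θ) ^ (d - 1) := one_le_pow₀ (by linarith)
  have hv0 : 0 ≤ v := by
    refine le_trans ?_ hv
    have : 0 ≤ ρ / Ds := by positivity
    linarith
  -- lower bound of the derivative
  have key1 : ∀ j, (∀ i < j, r ≤ ‖A i‖ ^ d ∧ q * ‖D i‖ ≤ ‖A i‖) → Ds ≤ ‖D j‖ := by
    intro j hj
    rcases hE j (fun i hi => (hj i hi).1) with h | ⟨i, hi, h1, -, -, h4, -⟩
    · refine hDsκ.trans (le_trans ?_ h)
      have : 1 ≤ Real.exp (η * j) := Real.one_le_exp (by positivity)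
      nlinarith
    · have h5 : κ ≤ ‖D i‖ := by
        refine le_trans ?_ h1
        have : 1 ≤ Real.exp (η * i) := Real.one_le_exp (by positivity)
        nlinarith
      have h6 : q * κ ≤ ‖A i‖ := le_trans (by gcongr) (hj i hi).2
      refine le_trans ?_ h4
      rw [hDs]
      calc κ ^ (d + 1) * q ^ (d - 1) = κ * (q * κ) ^ (d - 1) * κ := by
            rw [mul_pow]
            have : κ ^ (d + 1) = κ * κ ^ (d - 1) * κ := by
              rw [← pow_succ', ← pow_succ]; congr 1; omega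
            rw [this]; ring
        _ ≤ κ * ‖A i‖ ^ (d - 1) * ‖D i‖ := by gcongr
  -- facts at a time `j`
  have facts : ∀ j ≤ J, ((∀ i < j, r ≤ ‖A i‖ ^ d ∧ q * ‖D i‖ ≤ ‖A i‖) ∧
      ‖B j - A j‖ ≤ (1 + θ) ^ ((d - 1) * j) * (e0 + j * u) * ‖D j‖ ∧
      ‖G j - H * D j‖ ≤ j * v * (‖H‖ * ‖D j‖)) →
      ‖B j - A j‖ ≤ σ * ‖D j‖ ∧ ‖G j - H * D j‖ ≤ 1 / 2 * (‖H‖ * ‖D j‖) ∧
      q * ‖D j‖ ≤ ‖A j‖ ∧ r ≤ ‖A j‖ ^ d ∧ s / 8 * ‖D j‖ ≤ M := by
    rintro j hjJ ⟨h1, h2, h3⟩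
    have hjR : (j : ℝ) ≤ J := by exact_mod_cast hjJ
    have f1 := key1 j h1
    have hDj : 0 < ‖D j‖ := hDs0.trans_le f1
    have f3 : ‖B j - A j‖ ≤ σ * ‖D j‖ := by
      refine h2.trans ?_
      gcongr
      calc (1 + θ) ^ ((d - 1) * j) * (e0 + j * u) ≤ (1 + θ) ^ ((d - 1) * J) * (e0 + J * u) := by
            gcongr
            linarith
        _ ≤ 2 * (e0 + e0) := by gcongr
        _ = σ := by rw [hσ]; ring
    have f2 : ‖D j‖ ≤ d * 2 ^ d / q := by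
      rw [le_div_iff₀ hq]
      rcases Nat.eq_zero_or_pos j with h0 | h0
      · rw [h0, hD0, norm_one, one_mul]
        refine hq1.trans ?_
        have : (1 : ℝ) ≤ 2 ^ d := one_le_pow₀ (by norm_num)
        nlinarith
      · obtain ⟨i, rfl⟩ : ∃ i, j = i + 1 := ⟨j - 1, by omega⟩
        have h4 := (h1 i (by omega)).2
        rw [hD, norm_mul, norm_mul, norm_pow, Complex.norm_natCast]
        have h5 : ‖A i‖ ^ (d - 1) ≤ 2 ^ (d - 1) := pow_le_pow_left₀ (norm_nonneg _) (hA2 i) _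
        calc (d : ℝ) * ‖A i‖ ^ (d - 1) * ‖D i‖ * q = d * ‖A i‖ ^ (d - 1) * (q * ‖D i‖) := by ring
          _ ≤ d * 2 ^ (d - 1) * 2 := by
              gcongr
              exact h4.trans (hA2 i)
          _ = d * 2 ^ d := by
              rw [mul_assoc, ← pow_succ]; congr 2; omega
    have f3' : ‖B j‖ ≤ 4 := by
      have h4 : σ * ‖D j‖ ≤ 1 := by
        refine le_trans ?_ n7
        gcongr
      calc ‖B j‖ = ‖(B j - A j) + A j‖ := by ring_nf
        _ ≤ ‖B j - A j‖ + ‖A j‖ := norm_add_le _ _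
        _ ≤ 1 + 2 := add_le_add (f3.trans h4) (hA2 j)
        _ ≤ 4 := by norm_num
    have f4 : ‖G j - H * D j‖ ≤ 1 / 2 * (‖H‖ * ‖D j‖) := by
      refine h3.trans ?_
      gcongr
      exact le_trans (by gcongr) n6
    have f4' : 1 / 2 * (‖H‖ * ‖D j‖) ≤ ‖G j‖ := by
      have h5 : ‖H * D j‖ ≤ ‖G j‖ + ‖G j - H * D j‖ := by
        calc ‖H * D j‖ = ‖G j - (G j - H * D j)‖ := by ring_nf
          _ ≤ _ := norm_sub_le _ _
      rw [norm_mul] at h5
      linarith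
    obtain ⟨z1, z2, z3⟩ := hZ j f3'
    have f5 : s / 8 * ‖D j‖ ≤ ‖B j‖ * (1 + Real.log (M / ‖B j‖)) := by
      have h5 : s * ‖D j‖ ≤ τ * ‖H‖ * ‖D j‖ := by gcongr
      have h6 : τ / 2 * (1 / 2 * (‖H‖ * ‖D j‖)) ≤ τ / 2 * ‖G j‖ := by gcongr
      nlinarith
    have f6 := n8 ‖B j‖ ‖D j‖ z1 z2 f1 f5
    have f7 : q * ‖D j‖ ≤ ‖A j‖ := by
      have h5 : ‖B j‖ ≤ ‖A j‖ + ‖B j - A j‖ := by
        calc ‖B j‖ = ‖A j + (B j - A j)‖ := by ring_nf
          _ ≤ _ := norm_add_le _ _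
      have h6 : σ * ‖D j‖ ≤ q * ‖D j‖ := by gcongr
      nlinarith
    have f8 : κ ^ 2 * q ≤ ‖A j‖ := by
      rcases hE j (fun i hi => (h1 i hi).1) with h | ⟨i, hi, h4, h4', -, -, h7⟩
      · have h5 : κ ≤ ‖D j‖ := by
          refine le_trans ?_ h
          have : 1 ≤ Real.exp (η * j) := Real.one_le_exp (by positivity)
          nlinarith
        calc κ ^ 2 * q ≤ κ ^ 1 * q := by
              gcongr 1
              exact pow_le_pow_of_le_one hκ.le hκ1 (by omega)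
          _ = q * κ := by ring
          _ ≤ q * ‖D j‖ := by gcongr
          _ ≤ _ := f7
      · have h5 : κ ≤ ‖D i‖ := by
          refine le_trans ?_ h4
          have : 1 ≤ Real.exp (η * i) := Real.one_le_exp (by positivity)
          nlinarith
        have h6 : q * κ ≤ ‖A i‖ := le_trans (by gcongr) (h1 i hi).2
        have h8 : ‖A i‖ ≤ Real.sqrt ‖A i‖ := by
          apply Real.le_sqrt_of_sq_le
          nlinarith [norm_nonneg (A i)]
        calc κ ^ 2 * q = κ * (q * κ) := by ring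
          _ ≤ κ * Real.sqrt ‖A i‖ := by
              gcongr
              exact h6.trans h8
          _ ≤ _ := h7
    refine ⟨f3, f4, f7, ?_, ?_⟩
    · exact n9.trans (pow_le_pow_left₀ (by positivity) f8 _)
    · refine f5.trans ?_
      have h5 : Real.log (M / ‖B j‖) ≤ M / ‖B j‖ - 1 :=
        Real.log_le_sub_one_of_pos (by positivity)
      calc ‖B j‖ * (1 + Real.log (M / ‖B j‖)) ≤ ‖B j‖ * (1 + (M / ‖B j‖ - 1)) := by gcongr
        _ = M := by field_simp; ring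
  -- the induction
  have ind : ∀ j ≤ J, (∀ i < j, r ≤ ‖A i‖ ^ d ∧ q * ‖D i‖ ≤ ‖A i‖) ∧
      ‖B j - A j‖ ≤ (1 + θ) ^ ((d - 1) * j) * (e0 + j * u) * ‖D j‖ ∧
      ‖G j - H * D j‖ ≤ j * v * (‖H‖ * ‖D j‖) := by
    intro j
    induction j with
    | zero =>
      intro _
      refine ⟨fun i hi => absurd hi (by omega), ?_, ?_⟩
      · rw [hD0]; simpa using hBA
      · rw [hD0, hG0]; simp
    | succ j ih =>
      intro hj
      have hP := ih (by omega)
      obtain ⟨F1, F2, F3, F4, -⟩ := facts j (by omega) hP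
      obtain ⟨P1, P2, P3⟩ := hP
      have hjR : (0 : ℝ) ≤ j := Nat.cast_nonneg j
      have Q1 : ∀ i < j + 1, r ≤ ‖A i‖ ^ d ∧ q * ‖D i‖ ≤ ‖A i‖ := by
        intro i hi
        rcases Nat.lt_succ_iff_lt_or_eq.mp hi with h | h
        · exact P1 i h
        · rw [h]; exact ⟨F4, F3⟩
      have hDl := key1 (j + 1) Q1
      have hDn : ‖D (j + 1)‖ = d * ‖A j‖ ^ (d - 1) * ‖D j‖ := by
        rw [hD, norm_mul, norm_mul, norm_pow, Complex.norm_natCast]
      have hab : ‖B j - A j‖ ≤ θ * ‖A j‖ := by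
        rw [hθ]
        calc ‖B j - A j‖ ≤ σ * ‖D j‖ := F1
          _ = σ / q * (q * ‖D j‖) := by field_simp
          _ ≤ σ / q * ‖A j‖ := by gcongr
      refine ⟨Q1, ?_, ?_⟩
      · have h1 : B (j + 1) - A (j + 1) = (B j ^ d - A j ^ d) + (c₁ - c) := by
          rw [hA, hB]; ring
        have h2 := norm_pow_sub_le_mul (A j) (B j) d (by omega) θ hθ0.le hab
        have h3 : 2 * r ≤ u * ‖D (j + 1)‖ := by
          rw [hu]
          calc 2 * r = 2 * r / Ds * Ds := by field_simp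
            _ ≤ _ := by gcongr
        have h4 : 1 ≤ (1 + θ) ^ ((d - 1) * (j + 1)) := one_le_pow₀ (by linarith)
        rw [h1]
        push_cast
        calc ‖B j ^ d - A j ^ d + (c₁ - c)‖ ≤ ‖B j ^ d - A j ^ d‖ + ‖c₁ - c‖ := norm_add_le _ _
          _ ≤ d * ‖A j‖ ^ (d - 1) * (1 + θ) ^ (d - 1) * ‖B j - A j‖ + 2 * r := add_le_add h2 hcc
          _ ≤ d * ‖A j‖ ^ (d - 1) * (1 + θ) ^ (d - 1) *
              ((1 + θ) ^ ((d - 1) * j) * (e0 + j * u) * ‖D j‖) + u * ‖D (j + 1)‖ := by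
              gcongr
          _ = (1 + θ) ^ ((d - 1) * (j + 1)) * (e0 + j * u) * ‖D (j + 1)‖ +
              1 * (u * ‖D (j + 1)‖) := by
              rw [hDn, mul_add (d - 1) j 1, mul_one, pow_add]
              ring
          _ ≤ (1 + θ) ^ ((d - 1) * (j + 1)) * (e0 + j * u) * ‖D (j + 1)‖ +
              (1 + θ) ^ ((d - 1) * (j + 1)) * (u * ‖D (j + 1)‖) := by gcongr
          _ = _ := by ring
      · have h1 : G (j + 1) - H * D (j + 1) = d * (B j ^ (d - 1) - A j ^ (d - 1)) * G j +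
            d * A j ^ (d - 1) * (G j - H * D j) + g := by
          rw [hG, hD]; ring
        have h2 := norm_pow_sub_le' (A j) (B j) (d - 1) θ hθ0.le hab
        have h3 : ‖G j‖ ≤ 3 / 2 * (‖H‖ * ‖D j‖) := by
          calc ‖G j‖ = ‖(G j - H * D j) + H * D j‖ := by ring_nf
            _ ≤ ‖G j - H * D j‖ + ‖H * D j‖ := norm_add_le _ _
            _ ≤ 1 / 2 * (‖H‖ * ‖D j‖) + ‖H‖ * ‖D j‖ := by
                rw [norm_mul]; gcongr
            _ = _ := by ring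
        have h4 : ρ * ‖H‖ ≤ ρ / Ds * (‖H‖ * ‖D (j + 1)‖) := by
          calc ρ * ‖H‖ = ρ / Ds * (‖H‖ * Ds) := by field_simp
            _ ≤ _ := by gcongr
        rw [h1]
        push_cast
        calc ‖(d : ℂ) * (B j ^ (d - 1) - A j ^ (d - 1)) * G j +
              d * A j ^ (d - 1) * (G j - H * D j) + g‖
            ≤ d * ‖B j ^ (d - 1) - A j ^ (d - 1)‖ * ‖G j‖ +
              d * ‖A j‖ ^ (d - 1) * ‖G j - H * D j‖ + ‖g‖ := by
              refine (norm_add_le _ _).trans ?_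
              gcongr
              refine (norm_add_le _ _).trans ?_
              rw [norm_mul, norm_mul, norm_mul, norm_mul, norm_pow, Complex.norm_natCast]
          _ ≤ d * (‖A j‖ ^ (d - 1) * ((1 + θ) ^ (d - 1) - 1)) * (3 / 2 * (‖H‖ * ‖D j‖)) +
              d * ‖A j‖ ^ (d - 1) * (j * v * (‖H‖ * ‖D j‖)) +
                ρ / Ds * (‖H‖ * ‖D (j + 1)‖) := by
              have h5 : 0 ≤ (1 + θ) ^ (d - 1) - 1 := by linarith
              refine add_le_add (add_le_add ?_ ?_) (hg.trans h4)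
              · exact mul_le_mul (by gcongr) h3 (norm_nonneg _) (by positivity)
              · gcongr
          _ = (3 / 2 * ((1 + θ) ^ (d - 1) - 1) + ρ / Ds + j * v) * (‖H‖ * ‖D (j + 1)‖) := by
              rw [hDn]; ring
          _ ≤ (v + j * v) * (‖H‖ * ‖D (j + 1)‖) := by
              gcongr
              linarith
          _ = _ := by ring
  -- the end
  have up : ∀ i ≤ J, ‖D i‖ ≤ 8 * M / s := by
    intro i hi
    have h1 := (facts i hi (ind i hi)).2.2.2.2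
    rw [le_div_iff₀ hs]
    linarith
  obtain ⟨P1, -, -⟩ := ind J le_rfl
  rcases hE J (fun i hi => (P1 i hi).1) with h | ⟨i, hi, h1, h2, h3, -, -⟩
  · have h5 := up J le_rfl
    have h6 := n10 J (by
      have h7 : 0 ≤ Real.log (1 / (κ * q)) := by
        apply Real.log_nonneg
        rw [one_le_div (by positivity)]
        nlinarith
      have : 0 ≤ K * (1 + Real.log (1 / (κ * q))) := by positivity
      linarith)
    linarith
  · have h5 := up i hi.le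
    have h6 : κ ≤ ‖D i‖ := by
      refine le_trans ?_ h1
      have : 1 ≤ Real.exp (η * i) := Real.one_le_exp (by positivity)
      nlinarith
    have h7 : κ * q ≤ ‖A i‖ := by
      calc κ * q = q * κ := by ring
        _ ≤ q * ‖D i‖ := by gcongr
        _ ≤ _ := (P1 i hi).2
    have h8 : Real.log (1 / ‖A i‖) ≤ Real.log (1 / (κ * q)) := by
      apply Real.log_le_log (by
        have : 0 < ‖A i‖ := lt_of_lt_of_le (by positivity) h7
        positivity)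
      apply one_div_le_one_div_of_le (by positivity) h7
    have h9 := n10 i (by
      have : K * (1 + Real.log (1 / ‖A i‖)) ≤ K * (1 + Real.log (1 / (κ * q))) := by gcongr
      linarith)
    linarith

end Pool.Agent.N253.SM
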