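import Mathlib
import Pool.Agent.N253.SM.Core2

/-!
# The main lemma of project SM: choice of the constants
-/

set_option autoImplicit false

open Set Filter Metric Topology

namespace Pool.Agent.N253.SM

theorem rpow_r_bound {d : ℕ} (hd : 2 ≤ d) {ε r s : ℝ} (hε : 0 < ε) (hε1 : ε < 1 / (4 * d))
    (hr : 0 < r) (hs : 0 < s) (hs1 : s < 1) (h : r ^ (1 / (d : ℝ) - ε) ≤ s) :
    r < 1 ∧ r ≤ s ^ ((d : ℝ) + d ^ 2 * ε) ∧ r ^ (1 - ε) ≤ s ^ (d : ℝ) := by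
  have hdR : (2 : ℝ) ≤ d := by exact_mod_cast hd
  have hd0 : (0 : ℝ) < d := by linarith
  have hdε : d * ε < 1 / 4 := by
    rw [lt_div_iff₀ (by positivity)] at hε1
    nlinarith
  have he : 0 < 1 / (d : ℝ) - ε := by
    rw [sub_pos, lt_div_iff₀ hd0]
    nlinarith
  have hr1 : r < 1 := by
    by_contra hcon
    have h1 : 1 ≤ r ^ (1 / (d : ℝ) - ε) := Real.one_le_rpow (not_lt.mp hcon) he.le
    linarith
  have h2 : r ≤ s ^ ((d : ℝ) + d ^ 2 * ε) := by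
    have h3 : (r ^ (1 / (d : ℝ) - ε)) ^ ((d : ℝ) + d ^ 2 * ε) ≤ s ^ ((d : ℝ) + d ^ 2 * ε) :=
      Real.rpow_le_rpow (by positivity) h (by positivity)
    rw [← Real.rpow_mul hr.le] at h3
    have h4 : (1 / (d : ℝ) - ε) * ((d : ℝ) + d ^ 2 * ε) = 1 - (d * ε) ^ 2 := by
      field_simp
      ring
    rw [h4] at h3
    refine le_trans ?_ h3
    calc r = r ^ (1 : ℝ) := (Real.rpow_one r).symm
      _ ≤ r ^ (1 - (d * ε) ^ 2) :=
        Real.rpow_le_rpow_of_exponent_ge hr hr1.le (by nlinarith [sq_nonneg (d * ε)])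
  refine ⟨hr1, h2, ?_⟩
  have hε1' : ε ≤ 1 / 8 := by nlinarith
  calc r ^ (1 - ε) ≤ (s ^ ((d : ℝ) + d ^ 2 * ε)) ^ (1 - ε) :=
        Real.rpow_le_rpow hr.le h2 (by linarith)
    _ = s ^ (((d : ℝ) + d ^ 2 * ε) * (1 - ε)) := by rw [← Real.rpow_mul hs.le]
    _ ≤ s ^ (d : ℝ) := by
        apply Real.rpow_le_rpow_of_exponent_ge hs hs1.le
        have h5 : 0 ≤ (d : ℝ) * ε * (d - 1 - d * ε) := by
          apply mul_nonneg (by positivity)
          linarith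
        nlinarith

/-- the lower bound from the zero-free estimate -/
theorem n8_const {d : ℕ} (hd : 2 ≤ d) {κ M ε : ℝ} (hκ : 0 < κ) (hM : 1 ≤ M)
    (hε : 0 < ε) (hε1 : ε < 1) : ∃ s₀ : ℝ, 0 < s₀ ∧ s₀ < 1 ∧ ∀ s : ℝ, 0 < s → s ≤ s₀ →
    ∀ x y : ℝ, 0 < x → x ≤ M → κ ^ (d + 1) * (s ^ (1 + ε / 6)) ^ (d - 1) ≤ y →
      s / 8 * y ≤ x * (1 + Real.log (M / x)) → 2 * s ^ (1 + ε / 6) * y ≤ x := by
  have hdR : (2 : ℝ) ≤ d := by exact_mod_cast hd
  have hd0 : (0 : ℝ) < d := by linarith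
  set β : ℝ := ε / (48 * d) with hβ
  have hβ0 : 0 < β := by positivity
  have hβ1 : β ≤ 1 / 2 := by
    rw [hβ, div_le_iff₀ (by positivity)]
    nlinarith
  set C6 : ℝ := (M * (1 + 1 / β)) ^ 2 * 64 / κ ^ (2 * (d + 1)) with hC6
  have hC6p : 0 < C6 := by positivity
  set C7 : ℝ := 1 + C6 ^ β / β with hC7
  have hC7p : 0 < C7 := by positivity
  obtain ⟨s₀, h0, h1, h2⟩ := small_pow (16 * C7) (ε / 12) (by positivity)
  refine ⟨s₀, h0, h1, ?_⟩
  intro s hs hss x y hx hxM hy hxy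
  have hs1 : s < 1 := by linarith
  set q : ℝ := s ^ (1 + ε / 6) with hq
  have hq0 : 0 < q := by positivity
  have hDs0 : 0 < κ ^ (d + 1) * q ^ (d - 1) := by positivity
  have hy0 : 0 < y := hDs0.trans_le hy
  obtain ⟨h3, h4⟩ := zf_lower M β x (s / 8 * y) hM hβ0 hβ1 hx hxM (by positivity) hxy
  -- a crude lower bound for x
  have h5 : M / x ≤ C6 * s ^ (-(4 * d : ℝ)) := by
    have h6 : (s / 8 * (κ ^ (d + 1) * q ^ (d - 1))) ^ 2 ≤ (s / 8 * y) ^ 2 := by gcongr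
    have h7 := h6.trans h4
    have h8 : s ^ (4 * d : ℝ) ≤ s ^ 2 * (q ^ (d - 1)) ^ 2 := by
      have h9 : s ^ 2 * (q ^ (d - 1)) ^ 2 =
          s ^ ((2 : ℝ) + (1 + ε / 6) * ((d - 1 : ℕ) * 2 : ℕ)) := by
        rw [Real.rpow_add hs, ← pow_mul, hq, ← Real.rpow_natCast (s ^ (1 + ε / 6)),
          ← Real.rpow_mul hs.le]
        congr 1
        exact (Real.rpow_two s).symm
      rw [h9]
      apply Real.rpow_le_rpow_of_exponent_ge hs hs1.le
      have h10 : (((d - 1 : ℕ) * 2 : ℕ) : ℝ) = (d - 1) * 2 := by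
        push_cast [Nat.cast_sub (by omega : 1 ≤ d)]
        ring
      rw [h10]
      nlinarith
    rw [div_le_iff₀ hx]
    have h11 : s ^ (-(4 * d : ℝ)) = 1 / s ^ (4 * d : ℝ) := by
      rw [Real.rpow_neg hs.le, one_div]
    have h12 : 0 < s ^ (4 * d : ℝ) := by positivity
    rw [h11]
    have h13 : s ^ (4 * d : ℝ) * κ ^ (2 * (d + 1)) / 64 ≤ x * (M * (1 + 1 / β) ^ 2) := by
      refine le_trans ?_ h7
      calc s ^ (4 * d : ℝ) * κ ^ (2 * (d + 1)) / 64 ≤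
            s ^ 2 * (q ^ (d - 1)) ^ 2 * κ ^ (2 * (d + 1)) / 64 := by gcongr
        _ = _ := by ring
    have h14 : C6 * (1 / s ^ (4 * d : ℝ)) * x =
        M * (x * (M * (1 + 1 / β) ^ 2)) / (s ^ (4 * d : ℝ) * κ ^ (2 * (d + 1)) / 64) := by
      rw [hC6]
      field_simp
    rw [h14, le_div_iff₀ (by positivity)]
    have hM0 : 0 ≤ M := by linarith
    gcongr
  have h6 : (M / x) ^ β ≤ C6 ^ β * s ^ (-(ε / 12)) := by
    calc (M / x) ^ β ≤ (C6 * s ^ (-(4 * d : ℝ))) ^ β :=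
          Real.rpow_le_rpow (by positivity) h5 hβ0.le
      _ = C6 ^ β * s ^ (-(ε / 12)) := by
          rw [Real.mul_rpow hC6p.le (by positivity), ← Real.rpow_mul hs.le]
          congr 2
          rw [hβ]
          field_simp
          ring
  have h7 : 1 ≤ s ^ (-(ε / 12)) :=
    Real.one_le_rpow_of_pos_of_le_one_of_nonpos hs hs1.le (by linarith)
  have h8 : s / 8 * y ≤ x * (C7 * s ^ (-(ε / 12))) := by
    refine h3.trans ?_
    gcongr
    rw [hC7]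
    calc 1 + (M / x) ^ β / β ≤ s ^ (-(ε / 12)) + (C6 ^ β * s ^ (-(ε / 12))) / β := by gcongr
      _ = _ := by ring
  have h9 : s / 8 * y * s ^ (ε / 12) ≤ x * C7 := by
    calc s / 8 * y * s ^ (ε / 12) ≤ x * (C7 * s ^ (-(ε / 12))) * s ^ (ε / 12) := by gcongr
      _ = x * C7 * (s ^ (-(ε / 12)) * s ^ (ε / 12)) := by ring
      _ = x * C7 := by rw [← Real.rpow_add hs]; simp
  have h10 : q = s * s ^ (ε / 12) * s ^ (ε / 12) := by
    rw [hq, mul_assoc, ← Real.rpow_add hs]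
    nth_rewrite 2 [← Real.rpow_one s]
    rw [← Real.rpow_add hs]
    congr 1
    ring
  have h11 := h2 s hs hss
  have h12 : 0 < s ^ (ε / 12) := by positivity
  calc 2 * q * y = 16 * (s / 8 * y * s ^ (ε / 12)) * s ^ (ε / 12) := by rw [h10]; ring
    _ ≤ 16 * (x * C7) * s ^ (ε / 12) := by gcongr
    _ = x * (16 * C7 * s ^ (ε / 12)) := by ring
    _ ≤ x * 1 := by gcongr
    _ = x := by ring

end Pool.Agent.N253.SM
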