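import Mathlib
import Pool.Agent.N253.SM.Core3

/-!
# The main lemma of project SM: the final form for sequences
-/

set_option autoImplicit false

open Set Filter Metric Topology

namespace Pool.Agent.N253.SM

theorem J_bound {κ η K M ε : ℝ} (hκ : 0 < κ) (hκ1 : κ ≤ 1) (hη : 0 < η) (hK : 1 ≤ K)
    (hM : 1 ≤ M) (hε : 0 < ε) (hε1 : ε < 1) : ∃ C5 : ℝ, 1 ≤ C5 ∧ ∀ s : ℝ, 0 < s → s < 1 →
    ∃ J : ℕ, (J : ℝ) ≤ C5 * s ^ (-(ε / 6)) ∧
      ∀ i : ℕ, (J : ℝ) - K * (1 + Real.log (1 / (κ * s ^ (1 + ε / 6)))) ≤ i →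
        8 * M / s < κ * Real.exp (η * i) := by
  set p : ℝ := ε / 6 with hp
  have hp0 : 0 < p := by positivity
  have hlκ : 0 ≤ Real.log (1 / κ) := Real.log_nonneg (by rwa [one_le_div hκ])
  have hlM : 0 ≤ Real.log (8 * M / κ) := Real.log_nonneg (by
    rw [one_le_div hκ]; linarith)
  refine ⟨K * (1 + Real.log (1 / κ) + 2 / p) + (Real.log (8 * M / κ) + 1 / p + 1) / η + 1, ?_, ?_⟩
  · have h1 : 0 ≤ K * (1 + Real.log (1 / κ) + 2 / p) := by positivity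
    have h2 : 0 ≤ (Real.log (8 * M / κ) + 1 / p + 1) / η := by positivity
    linarith
  intro s hs hs1
  have hL0 : 0 ≤ Real.log (1 / s) := Real.log_nonneg (by rw [one_le_div hs]; exact hs1.le)
  have hsp : 1 ≤ s ^ (-p) := Real.one_le_rpow_of_pos_of_le_one_of_nonpos hs hs1.le (by linarith)
  have hL : Real.log (1 / s) ≤ s ^ (-p) / p := by
    have h1 := Real.log_le_rpow_div (x := 1 / s) (by positivity) hp0
    rwa [one_div, Real.inv_rpow hs.le, ← Real.rpow_neg hs.le, ← one_div] at h1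
  have hq : Real.log (1 / (κ * s ^ (1 + p))) = Real.log (1 / κ) + (1 + p) * Real.log (1 / s) := by
    rw [one_div, one_div, one_div, Real.log_inv, Real.log_inv, Real.log_inv,
      Real.log_mul hκ.ne' (by positivity), Real.log_rpow hs]
    ring
  have hM' : Real.log (8 * M / (κ * s)) = Real.log (8 * M / κ) + Real.log (1 / s) := by
    rw [← Real.log_mul (by positivity) (by positivity)]
    congr 1
    field_simp
  set X : ℝ := K * (1 + Real.log (1 / (κ * s ^ (1 + p)))) +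
    (Real.log (8 * M / (κ * s)) + 1) / η with hX
  have hX0 : 0 ≤ X := by
    rw [hX, hq, hM']
    positivity
  refine ⟨⌈X⌉₊, ?_, ?_⟩
  · have h1 := (Nat.ceil_lt_add_one hX0).le
    refine h1.trans ?_
    rw [hX, hq, hM']
    have h2 : (1 + p) * Real.log (1 / s) ≤ 2 / p * s ^ (-p) := by
      calc (1 + p) * Real.log (1 / s) ≤ 2 * (s ^ (-p) / p) := by
            gcongr
            rw [hp]; linarith
        _ = _ := by ring
    have h3 : 1 + (Real.log (1 / κ) + (1 + p) * Real.log (1 / s)) ≤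
        (1 + Real.log (1 / κ) + 2 / p) * s ^ (-p) := by
      have h4 : Real.log (1 / κ) ≤ Real.log (1 / κ) * s ^ (-p) := by
        nlinarith
      nlinarith
    have h5 : Real.log (8 * M / κ) + Real.log (1 / s) + 1 ≤
        (Real.log (8 * M / κ) + 1 / p + 1) * s ^ (-p) := by
      have h4 : Real.log (8 * M / κ) ≤ Real.log (8 * M / κ) * s ^ (-p) := by
        nlinarith
      have h6 : s ^ (-p) / p = 1 / p * s ^ (-p) := by ring
      rw [h6] at hL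
      nlinarith
    calc K * (1 + (Real.log (1 / κ) + (1 + p) * Real.log (1 / s))) +
          (Real.log (8 * M / κ) + Real.log (1 / s) + 1) / η + 1
        ≤ K * ((1 + Real.log (1 / κ) + 2 / p) * s ^ (-p)) +
          ((Real.log (8 * M / κ) + 1 / p + 1) * s ^ (-p)) / η + s ^ (-p) := by gcongr
      _ = _ := by ring
  · intro i hi
    have h1 : X ≤ (⌈X⌉₊ : ℝ) := Nat.le_ceil X
    have h2 : (Real.log (8 * M / (κ * s)) + 1) / η ≤ i := by linarith
    rw [div_le_iff₀ hη] at h2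
    have h3 : 0 < 8 * M / (κ * s) := by positivity
    have h4 : 8 * M / (κ * s) < Real.exp (η * i) := by
      rw [← Real.log_lt_iff_lt_exp h3]
      linarith
    calc 8 * M / s = κ * (8 * M / (κ * s)) := by field_simp
      _ < _ := by gcongr

theorem core {d : ℕ} (hd : 2 ≤ d) {κ η K M ε : ℝ} (hκ : 0 < κ) (hκ1 : κ ≤ 1) (hη : 0 < η)
    (hK : 1 ≤ K) (hM : 1 ≤ M) (hε : 0 < ε) (hε1 : ε < 1 / (4 * d)) :
    ∃ s₀ : ℝ, 0 < s₀ ∧ s₀ < 1 ∧ ∀ (r s τ : ℝ) (c c₁ g H : ℂ) (A B D G : ℕ → ℂ),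
    0 < r → 0 < s → s ≤ s₀ → r ^ (1 / (d : ℝ) - ε) ≤ s → 0 < τ → s ≤ τ * ‖H‖ →
    ‖c₁ - c‖ ≤ 2 * r → ‖g‖ ≤ r ^ (1 - ε) * ‖H‖ → ‖B 0 - A 0‖ ≤ s ^ (1 + ε) →
    D 0 = 1 → G 0 = H → (∀ j, A (j + 1) = A j ^ d + c) →
    (∀ j, B (j + 1) = B j ^ d + c₁) → (∀ j, D (j + 1) = d * A j ^ (d - 1) * D j) →
    (∀ j, G (j + 1) = d * B j ^ (d - 1) * G j + g) → (∀ j, ‖A j‖ ≤ 2) →
    (∀ n : ℕ, (∀ j < n, r ≤ ‖A j‖ ^ d) → κ * Real.exp (η * n) ≤ ‖D n‖ ∨
      ∃ i < n, κ * Real.exp (η * i) ≤ ‖D i‖ ∧ ‖A i‖ ≤ 1 ∧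
        (n : ℝ) - i ≤ K * (1 + Real.log (1 / ‖A i‖)) ∧
        κ * ‖A i‖ ^ (d - 1) * ‖D i‖ ≤ ‖D n‖ ∧ κ * Real.sqrt ‖A i‖ ≤ ‖A n‖) →
    (∀ j, ‖B j‖ ≤ 4 → 0 < ‖B j‖ ∧ ‖B j‖ ≤ M ∧
      τ / 2 * ‖G j‖ ≤ 2 * ‖B j‖ * (1 + Real.log (M / ‖B j‖))) → False := by
  have hdR : (2 : ℝ) ≤ d := by exact_mod_cast hd
  have hd0 : (0 : ℝ) < d := by linarith
  have hdε : d * ε < 1 / 4 := by
    rw [lt_div_iff₀ (by positivity)] at hε1
    nlinarith
  have hεlt : ε < 1 := by nlinarith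
  obtain ⟨C5, hC5, HJ⟩ := J_bound hκ hκ1 hη hK hM hε hεlt
  obtain ⟨s8, h80, h81, H8⟩ := n8_const hd hκ hM hε hεlt
  obtain ⟨s1, h10, h11, H1⟩ := small_pow (4 * (d * 2 ^ d)) (5 * ε / 6) (by positivity)
  obtain ⟨s2, h20, h21, H2⟩ := small_pow (64 * (d * C5)) (2 * ε / 3) (by positivity)
  obtain ⟨s3, h30, h31, H3⟩ := small_pow (2 * C5 / κ ^ (d + 1)) ε hε
  obtain ⟨s4, h40, h41, H4⟩ := small_pow (4 * C5 / κ ^ (d + 1)) (1 / 2) (by norm_num)
  obtain ⟨s5, h50, h51, H5⟩ := small_pow (1 / κ ^ (2 * d)) ε hε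
  refine ⟨min s8 (min s1 (min s2 (min s3 (min s4 s5)))), by positivity,
    (min_le_left _ _).trans_lt h81, ?_⟩
  intro r s τ c c₁ g H A B D G hr hs hss hrs hτ hH hcc hg hBA hD0 hG0 hA hB hD hG hA2 hE hZ
  have e8 : s ≤ s8 := hss.trans (min_le_left _ _)
  have e1 : s ≤ s1 := hss.trans ((min_le_right _ _).trans (min_le_left _ _))
  have e2 : s ≤ s2 := hss.trans ((min_le_right _ _).trans ((min_le_right _ _).trans
    (min_le_left _ _)))
  have e3 : s ≤ s3 := hss.trans ((min_le_right _ _).trans ((min_le_right _ _).trans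
    ((min_le_right _ _).trans (min_le_left _ _))))
  have e4 : s ≤ s4 := hss.trans ((min_le_right _ _).trans ((min_le_right _ _).trans
    ((min_le_right _ _).trans ((min_le_right _ _).trans (min_le_left _ _)))))
  have e5 : s ≤ s5 := hss.trans ((min_le_right _ _).trans ((min_le_right _ _).trans
    ((min_le_right _ _).trans ((min_le_right _ _).trans (min_le_right _ _)))))
  have hs1 : s < 1 := e8.trans_lt h81
  obtain ⟨hr1, hrs1, hrs2⟩ := rpow_r_bound hd hε hε1 hr hs hs1 hrs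
  obtain ⟨J, hJ1, hJ2⟩ := HJ s hs hs1
  have H1' := H1 s hs e1
  have H2' := H2 s hs e2
  have H3' := H3 s hs e3
  have H4' := H4 s hs e4
  have H5' := H5 s hs e5
  set q : ℝ := s ^ (1 + ε / 6) with hq
  have hq0 : 0 < q := by positivity
  have hq1 : q ≤ 1 := Real.rpow_le_one hs.le hs1.le (by positivity)
  set e0 : ℝ := s ^ (1 + ε) with he0
  have he00 : 0 < e0 := by positivity
  set Ds : ℝ := κ ^ (d + 1) * q ^ (d - 1) with hDs
  have hDs0 : 0 < Ds := by positivity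
  set θ : ℝ := 4 * e0 / q with hθ
  have hθ0 : 0 < θ := by positivity
  have hθe : θ = 4 * s ^ (5 * ε / 6) := by
    rw [hθ, he0, hq, mul_div_assoc, ← Real.rpow_sub hs]
    congr 2
    ring
  have hκd : 0 < κ ^ (d + 1) := by positivity
  have hqd : q ^ (d - 1) = s ^ ((1 + ε / 6) * (d - 1)) := by
    rw [hq, ← Real.rpow_natCast (s ^ (1 + ε / 6)), ← Real.rpow_mul hs.le]
    congr 2
    push_cast [Nat.cast_sub (by omega : 1 ≤ d)]
    ring
  have hd1 : (0 : ℝ) ≤ d - 1 := by linarith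
  -- J * θ
  have hJθ : (d : ℝ) * J * θ ≤ 1 / 16 := by
    calc (d : ℝ) * J * θ ≤ d * (C5 * s ^ (-(ε / 6))) * θ := by gcongr
      _ = 4 * (d * C5) * (s ^ (-(ε / 6)) * s ^ (5 * ε / 6)) := by rw [hθe]; ring
      _ = (64 * (d * C5) * s ^ (2 * ε / 3)) / 16 := by
          rw [← Real.rpow_add hs]
          have : -(ε / 6) + 5 * ε / 6 = 2 * ε / 3 := by ring
          rw [this]; ring
      _ ≤ 1 / 16 := by linarith
  have hθd : (d : ℝ) * θ ≤ 1 := by
    rw [hθe]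
    have h1 : (1 : ℝ) ≤ 2 ^ d := one_le_pow₀ (by norm_num)
    have h2 : 0 < s ^ (5 * ε / 6) := by positivity
    calc (d : ℝ) * (4 * s ^ (5 * ε / 6)) = 4 * (d * 1) * s ^ (5 * ε / 6) := by ring
      _ ≤ 4 * (d * 2 ^ d) * s ^ (5 * ε / 6) := by gcongr
      _ ≤ 1 := H1'
  have hexp : (1 + θ) ^ (d - 1) - 1 ≤ 2 * (d * θ) := by
    have h1 : (1 + θ) ^ (d - 1) ≤ Real.exp (d * θ) := by
      calc (1 + θ) ^ (d - 1) ≤ (1 + θ) ^ d := pow_le_pow_right₀ (by linarith) (by omega)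
        _ ≤ (Real.exp θ) ^ d := by
            gcongr
            linarith [Real.add_one_le_exp θ]
        _ = _ := by rw [← Real.exp_nat_mul]
    have h2 : Real.exp (d * θ) ≤ 1 + 2 * (d * θ) := by
      have h3 := Real.exp_bound_div_one_sub_of_interval (x := d * θ / 2) (by positivity)
        (by linarith)
      have h0 : 0 ≤ d * θ := by positivity
      have h5 := Real.abs_exp_sub_one_le (x := d * θ) (by rw [abs_of_nonneg h0]; exact hθd)
      rw [abs_of_nonneg h0] at h5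
      have h6 := le_abs_self (Real.exp (d * θ) - 1)
      linarith
    linarith
  refine core_num hd (J := J) (q := q) (σ := 4 * e0) (θ := θ) (Ds := Ds) (e0 := e0)
    (u := 2 * r / Ds) (v := 2 * ((1 + θ) ^ (d - 1) - 1) + r ^ (1 - ε) / Ds) (ρ := r ^ (1 - ε))
    hκ hκ1 hη (by linarith) hM hq0 hq1 he00 rfl ?_ rfl rfl rfl ?_ ?_ (by positivity) le_rfl ?_ ?_
    (H8 s hs e8) ?_ hJ2 hr hs hτ hH hcc hg hBA hD0 hG0 hA hB hD hG hA2 hE hZ
  · -- 4 e0 ≤ q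
    have h1 : 4 * e0 = θ * q := by rw [hθ]; field_simp
    rw [h1]
    have h2 : θ ≤ 1 := by
      have : θ ≤ d * θ := by nlinarith
      linarith
    nlinarith
  · -- n4
    calc (1 + θ) ^ ((d - 1) * J) ≤ (Real.exp θ) ^ ((d - 1) * J) := by
          gcongr
          linarith [Real.add_one_le_exp θ]
      _ = Real.exp (((d - 1) * J : ℕ) * θ) := by rw [← Real.exp_nat_mul]
      _ ≤ Real.exp (1 / 16) := by
          apply Real.exp_le_exp.mpr
          refine le_trans ?_ hJθ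
          push_cast [Nat.cast_sub (by omega : 1 ≤ d)]
          have : (0 : ℝ) ≤ J * θ := by positivity
          nlinarith
      _ ≤ Real.exp (1 / 2) := Real.exp_le_exp.mpr (by norm_num)
      _ ≤ 2 := by
          have h1 : Real.exp (1 / 2) ^ 2 ≤ 2 ^ 2 := by
            rw [← Real.exp_nat_mul]
            have := Real.exp_one_lt_d9
            norm_num
            linarith
          exact le_of_sq_le_sq h1 (by norm_num)
  · -- n5
    rw [hDs, hqd]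
    have h1 : (J : ℝ) * (2 * r / (κ ^ (d + 1) * s ^ ((1 + ε / 6) * ((d : ℝ) - 1)))) ≤
        (C5 * s ^ (-(ε / 6))) * (2 * s ^ ((d : ℝ) + d ^ 2 * ε) /
          (κ ^ (d + 1) * s ^ ((1 + ε / 6) * ((d : ℝ) - 1)))) := by gcongr
    refine h1.trans ?_
    have h2 : (C5 * s ^ (-(ε / 6))) * (2 * s ^ ((d : ℝ) + d ^ 2 * ε) /
          (κ ^ (d + 1) * s ^ ((1 + ε / 6) * ((d : ℝ) - 1)))) =
        (2 * C5 / κ ^ (d + 1)) * s ^ (-(ε / 6) + ((d : ℝ) + d ^ 2 * ε) -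
          (1 + ε / 6) * ((d : ℝ) - 1)) := by
      rw [Real.rpow_sub hs, Real.rpow_add hs (-(ε / 6)) ((d : ℝ) + d ^ 2 * ε)]
      generalize s ^ (-(ε / 6)) = a
      generalize s ^ ((d : ℝ) + d ^ 2 * ε) = b
      generalize s ^ ((1 + ε / 6) * ((d : ℝ) - 1)) = w
      ring
    rw [h2]
    have h3 : s ^ (-(ε / 6) + ((d : ℝ) + d ^ 2 * ε) - (1 + ε / 6) * ((d : ℝ) - 1)) ≤
        s ^ (ε + (1 + ε)) := by
      apply Real.rpow_le_rpow_of_exponent_ge hs hs1.le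
      have : 0 ≤ ε * ((d : ℝ) ^ 2 - d / 6 - 2) := by
        apply mul_nonneg hε.le
        nlinarith
      nlinarith
    calc 2 * C5 / κ ^ (d + 1) * s ^ (-(ε / 6) + ((d : ℝ) + d ^ 2 * ε) -
          (1 + ε / 6) * ((d : ℝ) - 1)) ≤ 2 * C5 / κ ^ (d + 1) * s ^ (ε + (1 + ε)) := by gcongr
      _ = (2 * C5 / κ ^ (d + 1) * s ^ ε) * s ^ (1 + ε) := by rw [Real.rpow_add hs]; ring
      _ ≤ 1 * s ^ (1 + ε) := by gcongr
      _ = e0 := by rw [he0, one_mul]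
  · -- n6
    have h1 : (J : ℝ) * (2 * ((1 + θ) ^ (d - 1) - 1)) ≤ 1 / 4 := by
      calc (J : ℝ) * (2 * ((1 + θ) ^ (d - 1) - 1)) ≤ J * (2 * (2 * (d * θ))) := by gcongr
        _ = 4 * (d * J * θ) := by ring
        _ ≤ 4 * (1 / 16) := by gcongr
        _ = 1 / 4 := by norm_num
    have h2 : (J : ℝ) * (r ^ (1 - ε) / Ds) ≤ 1 / 4 := by
      rw [hDs, hqd]
      have h3 : (J : ℝ) * (r ^ (1 - ε) / (κ ^ (d + 1) * s ^ ((1 + ε / 6) * ((d : ℝ) - 1)))) ≤
          (C5 * s ^ (-(ε / 6))) * (s ^ (d : ℝ) /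
            (κ ^ (d + 1) * s ^ ((1 + ε / 6) * ((d : ℝ) - 1)))) := by gcongr
      refine h3.trans ?_
      have h4 : (C5 * s ^ (-(ε / 6))) * (s ^ (d : ℝ) /
            (κ ^ (d + 1) * s ^ ((1 + ε / 6) * ((d : ℝ) - 1)))) =
          (C5 / κ ^ (d + 1)) * s ^ (-(ε / 6) + (d : ℝ) - (1 + ε / 6) * ((d : ℝ) - 1)) := by
        rw [Real.rpow_sub hs, Real.rpow_add hs]
        field_simp
      rw [h4]
      have h5 : s ^ (-(ε / 6) + (d : ℝ) - (1 + ε / 6) * ((d : ℝ) - 1)) ≤ s ^ (1 / 2 : ℝ) := by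
        apply Real.rpow_le_rpow_of_exponent_ge hs hs1.le
        nlinarith
      calc C5 / κ ^ (d + 1) * s ^ (-(ε / 6) + (d : ℝ) - (1 + ε / 6) * ((d : ℝ) - 1))
          ≤ C5 / κ ^ (d + 1) * s ^ (1 / 2 : ℝ) := by gcongr
        _ = (4 * C5 / κ ^ (d + 1) * s ^ (1 / 2 : ℝ)) / 4 := by ring
        _ ≤ 1 / 4 := by linarith
    rw [mul_add]
    linarith
  · -- n7
    have h1 : 4 * e0 * (d * 2 ^ d / q) = 4 * (d * 2 ^ d) * s ^ (5 * ε / 6) := by
      have : 4 * e0 * (d * 2 ^ d / q) = θ * (d * 2 ^ d) := by rw [hθ]; ring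
      rw [this, hθe]; ring
    rw [h1]; exact H1'
  · -- n9
    have h1 : (κ ^ 2 * q) ^ d = κ ^ (2 * d) * s ^ ((1 + ε / 6) * d) := by
      rw [mul_pow, ← pow_mul, hq, ← Real.rpow_natCast (s ^ (1 + ε / 6)), ← Real.rpow_mul hs.le]
    rw [h1]
    have h2 : (1 / κ ^ (2 * d)) * s ^ ε ≤ 1 := H5'
    have h3 : s ^ ε ≤ κ ^ (2 * d) := by
      rw [one_div, inv_mul_le_iff₀ (by positivity), mul_one] at h2
      exact h2
    calc r ≤ s ^ ((d : ℝ) + d ^ 2 * ε) := hrs1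
      _ ≤ s ^ (ε + (1 + ε / 6) * d) := by
          apply Real.rpow_le_rpow_of_exponent_ge hs hs1.le
          have : 0 ≤ ε * ((d : ℝ) ^ 2 - d / 6 - 1) := by
            apply mul_nonneg hε.le
            nlinarith
          nlinarith
      _ = s ^ ε * s ^ ((1 + ε / 6) * d) := Real.rpow_add hs _ _
      _ ≤ _ := by gcongr

end Pool.Agent.N253.SM
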