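import Mathlib
import Pool.Agent.N253.SM.Stm
import Pool.Agent.N253.SM.Core4
import Pool.Agent.Y674.CA.Lya

/-!
# The main lemma of project SM
-/

set_option autoImplicit false

open Set Filter Metric Topology

namespace Pool.Agent.N253.SM

open Pool.Agent.TH279.MD Pool.Agent.Y298.SH Pool.Agent.Y298.SH.CD Pool.Agent.Y298.CA

theorem hasDerivAt_it (d : ℕ) (c : ℂ) (j : ℕ) (y : ℂ) :
    DifferentiableAt ℂ ((f d c)^[j]) y := by
  induction j generalizing y with
  | zero => exact differentiableAt_id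
  | succ j ih =>
    rw [Function.iterate_succ]
    refine DifferentiableAt.comp y (ih _) ?_
    unfold f
    fun_prop

theorem deriv_it_succ (d : ℕ) (c : ℂ) (j : ℕ) (y : ℂ) :
    deriv ((f d c)^[j + 1]) y = d * ((f d c)^[j] y) ^ (d - 1) * deriv ((f d c)^[j]) y := by
  rw [Function.iterate_succ']
  have h1 : HasDerivAt (f d c) (d * ((f d c)^[j] y) ^ (d - 1)) ((f d c)^[j] y) := by
    unfold f
    exact (hasDerivAt_pow d _).add_const c
  exact (h1.comp y (hasDerivAt_it d c j y).hasDerivAt).deriv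

theorem t_Z (hE : S_EXP) (hF : S_ZF) (hS : S_SCHT) : S_Z := by
  intro d χ c₀ hd hL ε hε hε1
  obtain ⟨⟨C₁, lam, hCE⟩, -⟩ := Pool.Agent.Y674.CA.lya d χ c₀ hd hL
  have hc₀ : c₀ ≠ 0 := hCE.zz_ne 0
  have hc₀n : 0 < ‖c₀‖ := norm_pos_iff.mpr hc₀
  obtain ⟨κ, η, K, r₁, hκ, hκ1, hη, hK, hr₁, HE⟩ := hE d χ c₀ hd hL
  obtain ⟨M, hM, HM⟩ := hS d c₀ hd hc₀
  obtain ⟨s₀, hs₀, hs₀1, HC⟩ := core hd hκ hκ1 hη hK hM hε hε1
  refine ⟨min r₁ (min s₀ (‖c₀‖ / 2)), by positivity, ?_⟩
  intro r s hr hrr hrs hss a τ γ h c y hτ hγ hh hγc hc hsτ hγ' hay hy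
  by_contra hcon
  push Not at hcon
  have hs : 0 < s := lt_of_lt_of_le (by positivity) hrs
  have hr1 : r ≤ r₁ := hrr.trans (min_le_left _ _)
  have hr2 : r ≤ ‖c₀‖ / 2 := hrr.trans ((min_le_right _ _).trans (min_le_right _ _))
  have hs2 : s ≤ s₀ := hss.trans ((min_le_right _ _).trans (min_le_left _ _))
  set hj : ℕ → ℂ → ℂ := fun j z => (f d (γ z))^[j] (h z) with hhj
  have hj_succ : ∀ j z, hj (j + 1) z = hj j z ^ d + γ z := by
    intro j z
    show (f d (γ z))^[j + 1] (h z) = _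
    rw [Function.iterate_succ_apply']
    rfl
  have hj_diff : ∀ j, DifferentiableOn ℂ (hj j) (ball a τ) := by
    intro j
    induction j with
    | zero => exact hh
    | succ j ih =>
      have : hj (j + 1) = fun z => hj j z ^ d + γ z := funext (hj_succ j)
      rw [this]
      exact (ih.pow d).add hγ
  have ha : a ∈ ball a τ := mem_ball_self hτ
  have ha2 : a ∈ ball a (τ / 2) := mem_ball_self (by positivity)
  have hγa : DifferentiableAt ℂ γ a := hγ.differentiableAt (isOpen_ball.mem_nhds ha)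
  refine HC r s τ c (γ a) (deriv γ a) (deriv h a) (fun j => (f d c)^[j] y) (fun j => hj j a)
    (fun j => deriv ((f d c)^[j]) y) (fun j => deriv (hj j) a) hr hs hs2 hrs hτ hsτ ?_ hγ' hay ?_
    rfl ?_ (fun j => hj_succ j a) (fun j => deriv_it_succ d c j y) ?_ hy ?_ ?_
  · calc ‖γ a - c‖ = ‖(γ a - c₀) - (c - c₀)‖ := by ring_nf
      _ ≤ ‖γ a - c₀‖ + ‖c - c₀‖ := norm_sub_le _ _
      _ ≤ r + r := add_le_add (hγc a ha) hc
      _ = 2 * r := by ring
  · show deriv ((f d c)^[0]) y = 1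
    rw [Function.iterate_zero]
    exact deriv_id y
  · intro j
    show (f d c)^[j + 1] y = _
    rw [Function.iterate_succ_apply']
    rfl
  · intro j
    have hd1 := (hj_diff j).differentiableAt (isOpen_ball.mem_nhds ha)
    have heq : hj (j + 1) = fun z => hj j z ^ d + γ z := funext (hj_succ j)
    show deriv (hj (j + 1)) a = _
    rw [heq]
    have h1 : HasDerivAt (fun z => hj j z ^ d + γ z)
        (d * hj j a ^ (d - 1) * deriv (hj j) a + deriv γ a) a :=
      (hd1.hasDerivAt.pow d).add hγa.hasDerivAt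
    exact h1.deriv
  · intro n hn
    exact HE c r y n hr hr1 hc (fun j _ => (hy j).trans (by norm_num)) hn
  · intro j hBj
    have hne : ∀ i, ∀ z ∈ ball a τ, hj i z ≠ 0 := fun i z hz => hcon i z hz
    have h1 : ∀ z ∈ ball a (τ / 2), ‖hj j z‖ ≤ M :=
      HM a τ γ (hj j) hτ hγ (hj_diff j) (fun z hz => (hγc z hz).trans hr2) (hne j)
        (fun z hz => by rw [← hj_succ]; exact hne (j + 1) z hz) hBj
    refine ⟨norm_pos_iff.mpr (hne j a ha), h1 a ha2, ?_⟩
    have hsub : ball a (τ / 2) ⊆ ball a τ := ball_subset_ball (by linarith)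
    exact hF a (τ / 2) M (hj j) (by positivity) ((hj_diff j).mono hsub)
      (fun z hz => hne j z (hsub hz)) h1

end Pool.Agent.N253.SM
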