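import Mathlib
import Pool.Agent.N253.SM.Stm
import Pool.Agent.N253.SM.Core
import Pool.Agent.N253.SM.Zlem
import Pool.Agent.Y674.CA.Lya

/-!
# Similarity of the Multibrot set and of the Julia set: the assembly
-/

set_option autoImplicit false

open Set Filter Metric Topology

namespace Pool.Agent.N253.SM

open Pool.Agent.TH279.MD Pool.Agent.Y298.SH Pool.Agent.Y298.SH.CD Pool.Agent.Y298.CA
open Pool.Agent.H713R2.AR (KK)

/-- Orbits in the filled Julia set stay in the disc of radius 2. -/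
theorem bd_two {d : ℕ} (hd : 2 ≤ d) {c z : ℂ} (hc : ‖c‖ ≤ 2) (hz : z ∈ KK d c) (n : ℕ) :
    ‖(f d c)^[n] z‖ ≤ 2 := by
  by_contra hcon
  push Not at hcon
  apply hz
  change Tendsto (fun n => (f d c)^[n] z) atTop (Bornology.cobounded ℂ)
  set w := (f d c)^[n] z with hw
  obtain ⟨δ, hδ⟩ : ∃ δ : ℝ, δ = ‖w‖ - 2 := ⟨_, rfl⟩
  have hδ0 : 0 < δ := by rw [hδ]; linarith
  have h3 : ∀ j : ℕ, 2 + δ * 3 ^ j ≤ ‖(f d c)^[j] w‖ := by
    intro j
    induction j with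
    | zero => simp [hδ]
    | succ j ih =>
      rw [Function.iterate_succ_apply']
      set v := (f d c)^[j] w with hv
      have h6 : 0 < δ * 3 ^ j := by positivity
      have h4 : ‖v‖ ^ 2 ≤ ‖f d c v‖ + ‖c‖ := sq_le_f hd (by linarith)
      rw [pow_succ]
      nlinarith
  rw [← tendsto_norm_atTop_iff_cobounded]
  rw [← tendsto_add_atTop_iff_nat n]
  have h4 : Tendsto (fun j : ℕ => 2 + δ * (3 : ℝ) ^ j) atTop atTop :=
    tendsto_atTop_add_const_left _ _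
      ((tendsto_pow_atTop_atTop_of_one_lt (by norm_num)).const_mul_atTop hδ0)
  apply tendsto_atTop_mono _ h4
  intro j
  rw [Function.iterate_add_apply]
  exact h3 j

theorem mem_KK_of_zero {d : ℕ} {c z : ℂ} (hc : c ∈ N62a1eb23.multibrotSet d) {j : ℕ}
    (hj : (f d c)^[j] z = 0) : z ∈ KK d c := by
  rw [KK_iter d c z j, hj]
  exact hc

theorem mem_KK_self {d : ℕ} {c : ℂ} (hd : 2 ≤ d) (hc : c ∈ N62a1eb23.multibrotSet d) :
    c ∈ KK d c := by
  have h1 : (0 : ℂ) ∈ KK d c := hc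
  rw [KK_iff] at h1
  have h2 : f d c 0 = c := by
    unfold f
    rw [zero_pow (by omega), zero_add]
  rwa [h2] at h1

/-- Small powers, in the form used here. -/
theorem pow_le_of_gap {C p q : ℝ} (hpq : q < p) (hC : 0 ≤ C) :
    ∃ s₀ : ℝ, 0 < s₀ ∧ s₀ < 1 ∧ ∀ s : ℝ, 0 < s → s ≤ s₀ → C * s ^ p ≤ s ^ q := by
  obtain ⟨s₀, h0, h1, H⟩ := small_pow C (p - q) (by linarith)
  refine ⟨s₀, h0, h1, fun s hs hss => ?_⟩
  have h2 := H s hs hss
  calc C * s ^ p = (C * s ^ (p - q)) * s ^ q := by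
        rw [mul_assoc, ← Real.rpow_add hs]; ring_nf
    _ ≤ 1 * s ^ q := by
        have := Real.rpow_nonneg hs.le q
        gcongr
    _ = s ^ q := one_mul _

variable {d : ℕ} {χ : ℝ} {c₀ : ℂ}

theorem bd_self (hd : 2 ≤ d) {c : ℂ} (hc : c ∈ N62a1eb23.multibrotSet d) : ‖c‖ ≤ 2 :=
  norm_le_two hd hc

/-- **The parameters of the Multibrot set are close to the Julia set.** -/
theorem sim_a (hZ : S_Z) (hLn : S_LIN) (hd : 2 ≤ d) (hL : Lyap d χ c₀) {σ : ℝ}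
    (hσ : σ < 1 + 1 / d) : ∃ r₀ : ℝ, 0 < r₀ ∧ ∀ r : ℝ, 0 < r → r ≤ r₀ →
    ∀ c ∈ N62a1eb23.multibrotSet d, ‖c - c₀‖ ≤ r →
    ∃ z ∈ KK d c₀, ‖z - (c₀ + (∑' k, bb d c₀ k) * (c - c₀))‖ ≤ r ^ σ := by
  have hdR : (2 : ℝ) ≤ d := by exact_mod_cast hd
  have hd0 : (0 : ℝ) < d := by linarith
  obtain ⟨ε, hε⟩ : ∃ ε : ℝ, ε = min (1 / (8 * (d : ℝ))) ((1 + 1 / (d : ℝ) - σ) / 2) := ⟨_, rfl⟩
  have hε0 : 0 < ε := by
    rw [hε]
    apply lt_min (by positivity) (by linarith)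
  have hε1 : ε ≤ 1 / (8 * d) := by rw [hε]; exact min_le_left _ _
  have hε8 : 1 / (8 * (d : ℝ)) = 1 / d / 8 := by field_simp
  have hdp : 0 < 1 / (d : ℝ) := by positivity
  have hε2 : ε ≤ (1 + 1 / d - σ) / 2 := by rw [hε]; exact min_le_right _ _
  have hε3 : ε < 1 / (4 * d) := by
    refine lt_of_le_of_lt hε1 ?_
    apply one_div_lt_one_div_of_lt <;> linarith
  have hdinv : 1 / (d : ℝ) ≤ 1 / 2 := one_div_le_one_div_of_le (by norm_num) hdR
  have hε4 : ε ≤ 1 / 16 := by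
    refine hε1.trans ?_
    apply one_div_le_one_div_of_le <;> linarith
  obtain ⟨r₁, hr₁, H1⟩ := hLn d χ c₀ hd hL (ε / 2) (by linarith) (by linarith)
  obtain ⟨r₂, hr₂, H2⟩ := hZ d χ c₀ hd hL ε hε0 hε3
  have hdε : 0 < 1 / (d : ℝ) - ε := by
    have : 1 / (4 * (d : ℝ)) ≤ 1 / d := by
      apply one_div_le_one_div_of_le <;> linarith
    linarith
  -- `r ^ (1/d - ε) ≤ r₂`, and the ball is small
  obtain ⟨r₃, hr₃, hr₃1, H3⟩ := small_pow (1 / r₂) (1 / d - ε) hdε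
  obtain ⟨L, hLdef⟩ : ∃ L : ℂ, L = ∑' k, bb d c₀ k := ⟨_, rfl⟩
  rw [← hLdef] at H1 ⊢
  refine ⟨min r₁ (min r₂ r₃), by positivity, ?_⟩
  intro r hr hrr c hcM hc
  have hr1 : r ≤ r₁ := hrr.trans (min_le_left _ _)
  have hr2 : r ≤ r₂ := hrr.trans ((min_le_right _ _).trans (min_le_left _ _))
  have hr3 : r ≤ r₃ := hrr.trans ((min_le_right _ _).trans (min_le_right _ _))
  have hrlt : r < 1 := lt_of_le_of_lt hr3 hr₃1
  obtain ⟨n, A1, A2, A3⟩ := H1 r hr hr1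
  set s : ℝ := r ^ (1 / (d : ℝ) - ε) with hs
  have hs0 : 0 < s := Real.rpow_pos_of_pos hr _
  have hs2 : s ≤ r₂ := by
    have := H3 r hr hr3
    rw [one_div, inv_mul_le_iff₀ hr₂, mul_one] at this
    exact this
  set a : ℂ := c₀ + L * (c - c₀) with ha
  set τ : ℝ := s * r ^ (1 - ε / 2) with hτ
  have hτ0 : 0 < τ := by
    have := Real.rpow_pos_of_pos hr (1 - ε / 2)
    positivity
  have haS : ‖a - c₀‖ ≤ (2 + 2 * ‖L‖) * r := by
    rw [ha, add_sub_cancel_left, norm_mul]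
    have h1 : ‖L‖ * ‖c - c₀‖ ≤ ‖L‖ * r := by gcongr
    have h2 : 0 ≤ ‖L‖ * r := by positivity
    nlinarith
  have hder := (A3 a haS).1
  have hda : s ≤ τ * ‖deriv ((f d c₀)^[n]) a‖ := by
    calc s = s * r ^ (1 - ε / 2) * r ^ (ε / 2 - 1) := by
          rw [mul_assoc, ← Real.rpow_add hr]
          ring_nf
          rw [Real.rpow_zero, mul_one]
      _ ≤ τ * ‖deriv ((f d c₀)^[n]) a‖ := by
          rw [hτ]
          gcongr
  have hyb : ∀ k, ‖(f d c)^[k] ((f d c)^[n] c)‖ ≤ 2 := by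
    intro k
    rw [← Function.iterate_add_apply]
    exact bd_two hd (bd_self hd hcM) (mem_KK_self hd hcM) _
  have hclose : ‖(f d c₀)^[n] a - (f d c)^[n] c‖ ≤ s ^ (1 + ε) := by
    refine (A1 c hc).trans ?_
    rw [hs, ← Real.rpow_mul hr.le]
    apply Real.rpow_le_rpow_of_exponent_ge hr hrlt.le
    have : (1 / (d : ℝ) - ε) * (1 + ε) ≤ (1 / 2 - ε) * (1 + ε) := by
      gcongr
    nlinarith
  obtain ⟨j, z, hz, hjz⟩ := H2 r s hr hr2 le_rfl hs2 a τ (fun _ => c₀) ((f d c₀)^[n]) c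
    ((f d c)^[n] c) hτ0 (differentiableOn_const _)
    (fun z _ => (hasDerivAt_it d c₀ n z).differentiableWithinAt)
    (fun z _ => by rw [sub_self, norm_zero]; exact hr.le) hc hda
    (by rw [deriv_const, norm_zero]; positivity) hclose hyb
  refine ⟨z, ?_, ?_⟩
  · rw [← Function.iterate_add_apply] at hjz
    exact mem_KK_of_zero hL.2.1 hjz
  · rw [mem_ball, dist_eq_norm] at hz
    refine hz.le.trans ?_
    rw [hτ, hs, ← Real.rpow_add hr]
    apply Real.rpow_le_rpow_of_exponent_ge hr hrlt.le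
    linarith

/-- **The points of the Julia set are close to superattracting parameters.** -/
theorem sim_b (hZ : S_Z) (hLn : S_LIN) (hd : 2 ≤ d) (hL : Lyap d χ c₀) {σ : ℝ}
    (hσ : σ < 1 + 1 / d) (hL0 : ∑' k, bb d c₀ k ≠ 0) :
    ∃ r₀ : ℝ, 0 < r₀ ∧ ∀ r : ℝ, 0 < r → r ≤ r₀ →
    ∀ z ∈ KK d c₀, ‖z - c₀‖ ≤ r → ∃ (p : ℕ) (c' : ℂ), 1 ≤ p ∧ (f d c')^[p] 0 = 0 ∧
      ‖c₀ + (∑' k, bb d c₀ k) * (c' - c₀) - z‖ ≤ r ^ σ := by
  have hdR : (2 : ℝ) ≤ d := by exact_mod_cast hd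
  have hd0 : (0 : ℝ) < d := by linarith
  obtain ⟨ε, hε⟩ : ∃ ε : ℝ, ε = min (1 / (8 * (d : ℝ))) ((1 + 1 / (d : ℝ) - σ) / 2) := ⟨_, rfl⟩
  have hε0 : 0 < ε := by
    rw [hε]
    apply lt_min (by positivity) (by linarith)
  have hε1 : ε ≤ 1 / (8 * d) := by rw [hε]; exact min_le_left _ _
  have hε8 : 1 / (8 * (d : ℝ)) = 1 / d / 8 := by field_simp
  have hdp : 0 < 1 / (d : ℝ) := by positivity
  have hε2 : ε ≤ (1 + 1 / d - σ) / 2 := by rw [hε]; exact min_le_right _ _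
  have hε3 : ε < 1 / (4 * d) := by
    refine lt_of_le_of_lt hε1 ?_
    apply one_div_lt_one_div_of_lt <;> linarith
  have hdinv : 1 / (d : ℝ) ≤ 1 / 2 := one_div_le_one_div_of_le (by norm_num) hdR
  have hε4 : ε ≤ 1 / 16 := by
    refine hε1.trans ?_
    apply one_div_le_one_div_of_le <;> linarith
  obtain ⟨L, hLdef⟩ : ∃ L : ℂ, L = ∑' k, bb d c₀ k := ⟨_, rfl⟩
  obtain ⟨r₁, hr₁, H1⟩ := hLn d χ c₀ hd hL (ε / 2) (by linarith) (by linarith)
  rw [← hLdef] at H1 hL0 ⊢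
  have hLn0 : 0 < ‖L‖ := norm_pos_iff.mpr hL0
  obtain ⟨r₂, hr₂, H2⟩ := hZ d χ c₀ hd hL ε hε0 hε3
  have hdε : 0 < 1 / (d : ℝ) - ε := by
    have : 1 / (4 * (d : ℝ)) ≤ 1 / d := by
      apply one_div_le_one_div_of_le <;> linarith
    linarith
  obtain ⟨T, hT⟩ : ∃ T : ℝ, T = max 1 (1 / ‖L‖) := ⟨_, rfl⟩
  have hT1 : 1 ≤ T := by rw [hT]; exact le_max_left _ _
  have hT2 : 1 / ‖L‖ ≤ T := by rw [hT]; exact le_max_right _ _
  have hT0 : 0 < T := by linarith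
  -- smallness
  obtain ⟨q₁, hq₁, hq₁1, Q1⟩ := small_pow (2 ^ (1 / (d : ℝ) - ε) / r₂) (1 / d - ε) hdε
  obtain ⟨q₂, hq₂, hq₂1, Q2⟩ := pow_le_of_gap (C := 2 ^ (1 / (d : ℝ) - ε))
    (p := (1 / (d : ℝ) - ε) + (1 - ε / 2)) (q := 1) (by linarith) (by positivity)
  obtain ⟨q₃, hq₃, hq₃1, Q3⟩ := pow_le_of_gap
    (C := ‖L‖ * 2 ^ (1 / (d : ℝ) - ε) * T ^ ((1 / (d : ℝ) - ε) + (1 - ε / 2)))
    (p := (1 / (d : ℝ) - ε) + (1 - ε / 2)) (q := σ) (by linarith) (by positivity)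
  refine ⟨min (min r₁ (min (r₂ / 2) (min q₁ q₂)) / T) q₃, by positivity, ?_⟩
  intro r hr hrr z hz hzc
  obtain ⟨ρ, hρ⟩ : ∃ ρ : ℝ, ρ = T * r := ⟨_, rfl⟩
  have hρ0 : 0 < ρ := by rw [hρ]; positivity
  have hρm : ρ ≤ min r₁ (min (r₂ / 2) (min q₁ q₂)) := by
    have := hrr.trans (min_le_left _ _)
    rw [le_div_iff₀ hT0] at this
    rw [hρ]; linarith
  have hρ1 : ρ ≤ r₁ := hρm.trans (min_le_left _ _)
  have hρ2 : ρ ≤ r₂ / 2 := hρm.trans ((min_le_right _ _).trans (min_le_left _ _))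
  have hρ3 : ρ ≤ q₁ := hρm.trans ((min_le_right _ _).trans ((min_le_right _ _).trans
    (min_le_left _ _)))
  have hρ4 : ρ ≤ q₂ := hρm.trans ((min_le_right _ _).trans ((min_le_right _ _).trans
    (min_le_right _ _)))
  have hrq : r ≤ q₃ := hrr.trans (min_le_right _ _)
  have hρlt : ρ < 1 := lt_of_le_of_lt hρ3 hq₁1
  obtain ⟨n, A1, A2, A3⟩ := H1 ρ hρ0 hρ1
  set s : ℝ := (2 * ρ) ^ (1 / (d : ℝ) - ε) with hs
  have hseq : s = 2 ^ (1 / (d : ℝ) - ε) * ρ ^ (1 / (d : ℝ) - ε) := by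
    rw [hs, Real.mul_rpow (by norm_num) hρ0.le]
  have hs0 : 0 < s := Real.rpow_pos_of_pos (by linarith) _
  have hs2 : s ≤ r₂ := by
    have := Q1 ρ hρ0 hρ3
    rw [div_mul_eq_mul_div, ← hseq, div_le_one hr₂] at this
    exact this
  set a : ℂ := c₀ + (z - c₀) / L with ha
  have haL : c₀ + L * (a - c₀) = z := by
    rw [ha]; field_simp; ring
  have hac : ‖a - c₀‖ ≤ ρ := by
    rw [ha, add_sub_cancel_left, norm_div, hρ]
    calc ‖z - c₀‖ / ‖L‖ = 1 / ‖L‖ * ‖z - c₀‖ := by ring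
      _ ≤ T * r := by gcongr
  set τ : ℝ := s * ρ ^ (1 - ε / 2) with hτ
  have hτ0 : 0 < τ := by
    have := Real.rpow_pos_of_pos hρ0 (1 - ε / 2)
    positivity
  have hτeq : τ = 2 ^ (1 / (d : ℝ) - ε) * ρ ^ ((1 / (d : ℝ) - ε) + (1 - ε / 2)) := by
    rw [hτ, hseq, Real.rpow_add hρ0]; ring
  have hτρ : τ ≤ ρ := by
    have := Q2 ρ hρ0 hρ4
    rw [Real.rpow_one] at this
    rw [hτeq]; exact this
  have hball : ∀ t ∈ ball a τ, ‖t - c₀‖ ≤ 2 * ρ := by
    intro t ht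
    rw [mem_ball, dist_eq_norm] at ht
    calc ‖t - c₀‖ = ‖(t - a) + (a - c₀)‖ := by ring_nf
      _ ≤ ‖t - a‖ + ‖a - c₀‖ := norm_add_le _ _
      _ ≤ 2 * ρ := by linarith
  have hder := (A2 a (by linarith)).1
  have hρp : 0 < ρ ^ (1 - ε / 2) := Real.rpow_pos_of_pos hρ0 _
  have hda : s ≤ τ * ‖deriv (fun t => (f d t)^[n] t) a‖ := by
    calc s = s * ρ ^ (1 - ε / 2) * ρ ^ (ε / 2 - 1) := by
          rw [mul_assoc, ← Real.rpow_add hρ0]
          ring_nf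
          rw [Real.rpow_zero, mul_one]
      _ ≤ τ * ‖deriv (fun t => (f d t)^[n] t) a‖ := by
          rw [hτ]
          gcongr
  have hyb : ∀ k, ‖(f d c₀)^[k] ((f d c₀)^[n] z)‖ ≤ 2 := by
    intro k
    rw [← Function.iterate_add_apply]
    exact bd_two hd (bd_self hd hL.2.1) hz _
  have hdif : ∀ m : ℕ, Differentiable ℂ (fun t : ℂ => (f d t)^[m] t) := by
    intro m
    induction m with
    | zero => exact differentiable_id
    | succ m ih =>
      have : (fun t : ℂ => (f d t)^[m + 1] t) = fun t => ((f d t)^[m] t) ^ d + t := by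
        funext t
        rw [Function.iterate_succ_apply']
        rfl
      rw [this]
      exact (ih.pow d).add differentiable_id
  have hclose : ‖(f d a)^[n] a - (f d c₀)^[n] z‖ ≤ s ^ (1 + ε) := by
    have h1 := A1 a hac
    rw [haL, norm_sub_rev] at h1
    refine h1.trans ?_
    calc ρ ^ (1 / 2 - ε / 2) ≤ ρ ^ ((1 / (d : ℝ) - ε) * (1 + ε)) := by
          apply Real.rpow_le_rpow_of_exponent_ge hρ0 hρlt.le
          have : (1 / (d : ℝ) - ε) * (1 + ε) ≤ (1 / 2 - ε) * (1 + ε) := by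
            gcongr
          nlinarith
      _ ≤ (2 * ρ) ^ ((1 / (d : ℝ) - ε) * (1 + ε)) := by
          apply Real.rpow_le_rpow hρ0.le (by linarith) (by positivity)
      _ = s ^ (1 + ε) := by rw [hs, ← Real.rpow_mul (by linarith)]
  have hγd : ‖deriv (fun t : ℂ => t) a‖ ≤
      (2 * ρ) ^ (1 - ε) * ‖deriv (fun t => (f d t)^[n] t) a‖ := by
    have h1 : deriv (fun t : ℂ => t) a = 1 := deriv_id a
    rw [h1, norm_one]
    calc (1 : ℝ) ≤ ρ ^ (-(ε / 2)) := by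
          apply Real.one_le_rpow_of_pos_of_le_one_of_nonpos hρ0 hρlt.le (by linarith)
      _ = ρ ^ (1 - ε) * ρ ^ (ε / 2 - 1) := by rw [← Real.rpow_add hρ0]; ring_nf
      _ ≤ (2 * ρ) ^ (1 - ε) * ‖deriv (fun t => (f d t)^[n] t) a‖ := by
          gcongr
          · linarith
          · linarith
  obtain ⟨j, t, ht, hjt⟩ := H2 (2 * ρ) s (by linarith) (by linarith) le_rfl hs2 a τ (fun t => t)
    (fun t => (f d t)^[n] t) c₀ ((f d c₀)^[n] z) hτ0 differentiableOn_id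
    (hdif n).differentiableOn hball (by rw [sub_self, norm_zero]; linarith) hda hγd hclose hyb
  refine ⟨j + n + 1, t, by omega, ?_, ?_⟩
  · rw [Function.iterate_add_apply, Function.iterate_add_apply, Function.iterate_one]
    have h2 : f d t 0 = t := by
      unfold f
      rw [zero_pow (by omega), zero_add]
    rw [h2]
    exact hjt
  · rw [mem_ball, dist_eq_norm] at ht
    have h1 : c₀ + L * (t - c₀) - z = L * (t - a) := by
      rw [← haL]; ring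
    rw [h1, norm_mul]
    calc ‖L‖ * ‖t - a‖ ≤ ‖L‖ * τ := by gcongr
      _ = ‖L‖ * 2 ^ (1 / (d : ℝ) - ε) * T ^ ((1 / (d : ℝ) - ε) + (1 - ε / 2)) *
          r ^ ((1 / (d : ℝ) - ε) + (1 - ε / 2)) := by
          rw [hτeq, hρ, Real.mul_rpow hT0.le hr.le]; ring
      _ ≤ r ^ σ := Q3 r hr hrq

/-- **Continuity of the Julia set.** -/
theorem sim_c (hZ : S_Z) (hd : 2 ≤ d) (hL : Lyap d χ c₀) {σ : ℝ} (hσ : σ < 1 / d) :
    ∃ r₀ : ℝ, 0 < r₀ ∧ ∀ r : ℝ, 0 < r → r ≤ r₀ → ∀ c : ℂ, ‖c‖ ≤ 2 → ‖c - c₀‖ ≤ r →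
    (∀ w ∈ KK d c, ∃ z ∈ KK d c₀, ‖z - w‖ ≤ r ^ σ) ∧
    (c ∈ N62a1eb23.multibrotSet d → ∀ w ∈ KK d c₀, ∃ z ∈ KK d c, ‖z - w‖ ≤ r ^ σ) := by
  have hdR : (2 : ℝ) ≤ d := by exact_mod_cast hd
  have hd0 : (0 : ℝ) < d := by linarith
  obtain ⟨ε, hε⟩ : ∃ ε : ℝ, ε = min (1 / (8 * (d : ℝ))) (1 / (d : ℝ) - σ) := ⟨_, rfl⟩
  have hε0 : 0 < ε := by
    rw [hε]
    apply lt_min (by positivity) (by linarith)
  have hε1 : ε ≤ 1 / (8 * d) := by rw [hε]; exact min_le_left _ _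
  have hε8 : 1 / (8 * (d : ℝ)) = 1 / d / 8 := by field_simp
  have hdp : 0 < 1 / (d : ℝ) := by positivity
  have hε2 : ε ≤ 1 / d - σ := by rw [hε]; exact min_le_right _ _
  have hε3 : ε < 1 / (4 * d) := by
    refine lt_of_le_of_lt hε1 ?_
    apply one_div_lt_one_div_of_lt <;> linarith
  obtain ⟨r₂, hr₂, H2⟩ := hZ d χ c₀ hd hL ε hε0 hε3
  have hdε : 0 < 1 / (d : ℝ) - ε := by
    have : 1 / (4 * (d : ℝ)) ≤ 1 / d := by
      apply one_div_le_one_div_of_le <;> linarith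
    linarith
  obtain ⟨r₃, hr₃, hr₃1, H3⟩ := small_pow (1 / r₂) (1 / d - ε) hdε
  refine ⟨min r₂ r₃, by positivity, ?_⟩
  intro r hr hrr c hc2 hc
  have hr2 : r ≤ r₂ := hrr.trans (min_le_left _ _)
  have hr3 : r ≤ r₃ := hrr.trans (min_le_right _ _)
  have hrlt : r < 1 := lt_of_le_of_lt hr3 hr₃1
  set s : ℝ := r ^ (1 / (d : ℝ) - ε) with hs
  have hs0 : 0 < s := Real.rpow_pos_of_pos hr _
  have hs2 : s ≤ r₂ := by
    have := H3 r hr hr3
    rw [one_div, inv_mul_le_iff₀ hr₂, mul_one] at this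
    exact this
  have hsσ : s ≤ r ^ σ := by
    rw [hs]
    apply Real.rpow_le_rpow_of_exponent_ge hr hrlt.le
    linarith
  have key : ∀ c₁ c₂ w : ℂ, ‖c₁ - c₀‖ ≤ r → ‖c₂ - c₀‖ ≤ r → ‖c₁‖ ≤ 2 → w ∈ KK d c₁ →
      ∃ j, ∃ z ∈ ball w s, (f d c₂)^[j] z = 0 := by
    intro c₁ c₂ w h1 h2 h3 hw
    have hd1 : deriv (fun t : ℂ => t) w = 1 := deriv_id w
    exact H2 r s hr hr2 le_rfl hs2 w s (fun _ => c₂) (fun t => t) c₁ w hs0
      (differentiableOn_const _) differentiableOn_id (fun _ _ => h2) h1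
      (by rw [hd1, norm_one, mul_one]) (by rw [deriv_const, norm_zero]; positivity)
      (by rw [sub_self, norm_zero]; positivity) (bd_two hd h3 hw)
  refine ⟨?_, ?_⟩
  · intro w hw
    obtain ⟨j, z, hz, hjz⟩ := key c c₀ w hc (by rw [sub_self, norm_zero]; exact hr.le) hc2 hw
    rw [mem_ball, dist_eq_norm] at hz
    exact ⟨z, mem_KK_of_zero hL.2.1 hjz, hz.le.trans hsσ⟩
  · intro hcM w hw
    obtain ⟨j, z, hz, hjz⟩ := key c₀ c w (by rw [sub_self, norm_zero]; exact hr.le) hc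
      (bd_self hd hL.2.1) hw
    rw [mem_ball, dist_eq_norm] at hz
    exact ⟨z, mem_KK_of_zero hcM hjz, hz.le.trans hsσ⟩

/-- The filled Julia set has empty interior. -/
theorem interior_KK (hE : S_EXP) (hd : 2 ≤ d) (hL : Lyap d χ c₀) : interior (KK d c₀) = ∅ := by
  obtain ⟨⟨C₁, lam, hCE⟩, -⟩ := Pool.Agent.Y674.CA.lya d χ c₀ hd hL
  have hc₀2 : ‖c₀‖ ≤ 2 := bd_self hd hL.2.1
  -- Cauchy estimate
  have cau : ∀ (y : ℂ) (τ : ℝ), 0 < τ → closedBall y τ ⊆ KK d c₀ → ∀ n,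
      ‖deriv ((f d c₀)^[n]) y‖ ≤ 2 / τ := by
    intro y τ hτ hsub n
    refine Complex.norm_deriv_le_of_forall_mem_sphere_norm_le hτ
      ⟨fun z _ => (hasDerivAt_it d c₀ n z).differentiableWithinAt, fun z _ =>
        (hasDerivAt_it d c₀ n z).continuousAt.continuousWithinAt⟩ ?_
    intro z hz
    exact bd_two hd hc₀2 (hsub (sphere_subset_closedBall hz)) n
  rw [Set.eq_empty_iff_forall_notMem]
  -- the critical value is not an interior point
  have hc₀i : c₀ ∉ interior (KK d c₀) := by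
    intro h
    obtain ⟨τ, hτ, hsub⟩ := Metric.isOpen_iff.mp isOpen_interior _ h
    have h1 := cau c₀ (τ / 2) (by positivity)
      ((closedBall_subset_ball (by linarith)).trans (hsub.trans interior_subset))
    have hl := hCE.lam1
    have hC := hCE.C1
    obtain ⟨n, hn⟩ := pow_unbounded_of_one_lt (C₁ * (2 / (τ / 2))) hl
    have h2 := hCE.exp n
    have h3 : Pd d c₀ n ≤ 2 / (τ / 2) := h1 n
    have h4 : C₁ * Pd d c₀ n ≤ C₁ * (2 / (τ / 2)) := by gcongr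
    linarith
  have hfi : ∀ y ∈ interior (KK d c₀), f d c₀ y ∈ interior (KK d c₀) := by
    intro y hy
    have hopen : IsOpenMap (f d c₀) := by
      have h1 : AnalyticOnNhd ℂ (f d c₀) univ := by
        intro z _
        unfold f
        fun_prop
      rcases h1.is_constant_or_isOpen isPreconnected_univ with ⟨w, hw⟩ | h2
      · exfalso
        have h3 := hw 0 (mem_univ _)
        have h4 := hw 1 (mem_univ _)
        unfold f at h3 h4
        rw [zero_pow (by omega)] at h3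
        rw [one_pow] at h4
        rw [← h3] at h4
        simp at h4
      · intro s hs
        exact h2 s (subset_univ _) hs
    have h1 : f d c₀ '' interior (KK d c₀) ⊆ interior (KK d c₀) := by
      apply interior_maximal _ (hopen _ isOpen_interior)
      rintro _ ⟨x, hx, rfl⟩
      exact (KK_iff d c₀ x).mp (interior_subset hx)
    exact h1 ⟨y, hy, rfl⟩
  intro y hy
  have hiter : ∀ n, (f d c₀)^[n] y ∈ interior (KK d c₀) := by
    intro n
    induction n with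
    | zero => exact hy
    | succ n ih => rw [Function.iterate_succ_apply']; exact hfi _ ih
  have hne : ∀ n, (f d c₀)^[n] y ≠ 0 := by
    intro n h0
    apply hc₀i
    have h1 := hiter (n + 1)
    rw [Function.iterate_succ_apply', h0] at h1
    have h2 : f d c₀ 0 = c₀ := by
      unfold f
      rw [zero_pow (by omega), zero_add]
    rwa [h2] at h1
  obtain ⟨κ, η, K, r₁, hκ, hκ1, hη, hK, hr₁, HE⟩ := hE d χ c₀ hd hL
  obtain ⟨τ, hτ, hsub⟩ := Metric.isOpen_iff.mp isOpen_interior _ hy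
  have h1 := cau y (τ / 2) (by positivity)
    ((closedBall_subset_ball (by linarith)).trans (hsub.trans interior_subset))
  -- large times
  have hbig : ∀ n : ℕ, κ * Real.exp (η * n) ≤ ‖deriv ((f d c₀)^[n]) y‖ →
      κ * (η * n) ≤ 2 / (τ / 2) := by
    intro n hn
    have h2 := h1 n
    have h3 := Real.add_one_le_exp (η * n)
    have h4 : κ * (η * n) ≤ κ * Real.exp (η * n) := by
      gcongr; linarith
    linarith
  obtain ⟨N, hN⟩ := exists_nat_gt (2 / (τ / 2) / (κ * η))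
  have hN' : ∀ n : ℕ, N ≤ n → ¬ κ * Real.exp (η * n) ≤ ‖deriv ((f d c₀)^[n]) y‖ := by
    intro n hn hcon
    have h2 := hbig n hcon
    have h3 : (N : ℝ) ≤ n := by exact_mod_cast hn
    rw [div_lt_iff₀ (by positivity)] at hN
    have h4 : N * (κ * η) ≤ n * (κ * η) := by gcongr
    linarith
  -- a bound for the length of the passages which begin before `N`
  obtain ⟨B, hB⟩ : ∃ B : ℝ, ∀ i < N, K * (1 + Real.log (1 / ‖(f d c₀)^[i] y‖)) ≤ B := by
    refine ⟨∑ i ∈ Finset.range N, |K * (1 + Real.log (1 / ‖(f d c₀)^[i] y‖))|, fun i hi => ?_⟩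
    refine (le_abs_self _).trans ?_
    exact Finset.single_le_sum (f := fun i => |K * (1 + Real.log (1 / ‖(f d c₀)^[i] y‖))|)
      (fun i _ => abs_nonneg _) (Finset.mem_range.mpr hi)
  obtain ⟨m, hm⟩ := exists_nat_gt (N + |B|)
  have hNm : N ≤ m := by
    have : (N : ℝ) < m := by linarith [abs_nonneg B]
    exact_mod_cast this.le
  -- the scale
  obtain ⟨r, hr0, hr1, hr⟩ : ∃ r : ℝ, 0 < r ∧ r ≤ r₁ ∧ ∀ j < m, r ≤ ‖(f d c₀)^[j] y‖ ^ d := by
    have : ∀ m : ℕ, ∃ r : ℝ, 0 < r ∧ r ≤ r₁ ∧ ∀ j < m, r ≤ ‖(f d c₀)^[j] y‖ ^ d := by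
      intro m
      induction m with
      | zero => exact ⟨r₁, hr₁, le_rfl, fun j hj => absurd hj (Nat.not_lt_zero j)⟩
      | succ m ih =>
        obtain ⟨r, h0, h1, h2⟩ := ih
        refine ⟨min r (‖(f d c₀)^[m] y‖ ^ d), lt_min h0 (pow_pos (norm_pos_iff.mpr (hne m)) d),
          (min_le_left _ _).trans h1, fun j hj => ?_⟩
        rcases Nat.lt_succ_iff_lt_or_eq.mp hj with h | rfl
        · exact (min_le_left _ _).trans (h2 j h)
        · exact min_le_right _ _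
    exact this m
  rcases HE c₀ r y m hr0 hr1 (by rw [sub_self, norm_zero]; exact hr0.le)
    (fun j _ => (bd_two hd hc₀2 (interior_subset hy) j).trans (by norm_num)) hr with h | h
  · exact hN' m hNm h
  · obtain ⟨i, him, h2, h3, h4, -, -⟩ := h
    have hiN : i < N := by
      by_contra hcon
      exact hN' i (not_lt.mp hcon) h2
    have h5 := hB i hiN
    have h6 : (i : ℝ) < N := by exact_mod_cast hiN
    have h7 := le_abs_self B
    linarith

end Pool.Agent.N253.SM
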