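import Pool.Agent.N253.SM.Stm
import Pool.Agent.Y932.CA.ME
import Pool.Agent.Y811.CA.PS
import Pool.Agent.Y674.CA.Lya

/-!
# Project SM (helper253), job FREE (helper803): expansion away from the critical point
-/

set_option autoImplicit false

open Set Filter Metric Topology

namespace Pool.Agent.N253.SM

open Pool.Agent.TH279.MD Pool.Agent.Y298.SH Pool.Agent.Y298.SH.CD Pool.Agent.Y298.CA

/-- one block -/
lemma free_block {d : ℕ} (hd : 2 ≤ d) {δ : ℝ} (hδ : 0 < δ) {c y : ℂ} {m : ℕ} {a b : ℝ}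
    (hb : 0 ≤ b) (hab : a * b ^ 2 ≤ 1) (hy : ∀ j < m, 2 * δ ≤ ‖(f d c)^[j] y‖)
    (hpsi : psi d δ c m ((f d c)^[m] y) ≤ a) : b ≤ ‖deriv ((f d c)^[m]) y‖ := by
  have h1 := Pool.Agent.Y932.CA.one d δ c m y hd hδ hy
  by_contra hcon
  push Not at hcon
  have h0 : 0 ≤ ‖deriv ((f d c)^[m]) y‖ := norm_nonneg _
  have hp := psi_nonneg (d := d) hδ c m ((f d c)^[m] y)
  have ha : 0 ≤ a := hp.trans hpsi
  have h2 : ‖deriv ((f d c)^[m]) y‖ ^ 2 < b ^ 2 := by
    exact pow_lt_pow_left₀ hcon h0 two_ne_zero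
  have h3 : psi d δ c m ((f d c)^[m] y) * ‖deriv ((f d c)^[m]) y‖ ^ 2 ≤
      a * ‖deriv ((f d c)^[m]) y‖ ^ 2 := mul_le_mul_of_nonneg_right hpsi (sq_nonneg _)
  have h4 : 0 < a := by
    rcases ha.eq_or_lt with h | h
    · rw [← h, zero_mul] at h3
      linarith
    · exact h
  have h5 : a * ‖deriv ((f d c)^[m]) y‖ ^ 2 < a * b ^ 2 := mul_lt_mul_of_pos_left h2 h4
  linarith

/-- many blocks -/
lemma free_blocks {d : ℕ} (hd : 2 ≤ d) {δ : ℝ} (hδ : 0 < δ) {c : ℂ} {N : ℕ}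
    (hpsi : ∀ w : ℂ, ‖w‖ ≤ 4 → psi d δ c N w ≤ 1 / 16) (q : ℕ) : ∀ y : ℂ,
    (∀ j < N * q, 2 * δ ≤ ‖(f d c)^[j] y‖) → (∀ j ≤ N * q, ‖(f d c)^[j] y‖ ≤ 4) →
    (4 : ℝ) ^ q ≤ ‖deriv ((f d c)^[N * q]) y‖ := by
  induction q with
  | zero =>
    intro y _ _
    simp
  | succ q ih =>
    intro y h1 h2
    have e : N * (q + 1) = N + N * q := by ring
    have h3 := ih y (fun j hj => h1 j (by rw [e]; omega)) (fun j hj => h2 j (by rw [e]; omega))
    rw [e, deriv_iter_add, norm_mul, pow_succ, mul_comm]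
    have h4 : (4 : ℝ) ≤ ‖deriv ((f d c)^[N]) ((f d c)^[N * q] y)‖ := by
      refine free_block hd hδ (a := 1 / 16) (by norm_num) (by norm_num) ?_ ?_
      · intro j hj
        rw [← Function.iterate_add_apply]
        exact h1 _ (by rw [e]; omega)
      · apply hpsi
        rw [← Function.iterate_add_apply]
        exact h2 _ (by rw [e])
    exact mul_le_mul h4 h3 (by positivity) (by positivity)

theorem t_FREE : S_FREE := by
  intro d χ c₀ hd hL
  obtain ⟨⟨C₁, lam, hCE⟩, -⟩ := Pool.Agent.Y674.CA.lya d χ c₀ hd hL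
  obtain ⟨ρ₀, Γ₀, hρ, hΓ, hps⟩ := Pool.Agent.Y811.CA.ps d C₁ lam c₀ hCE
  refine ⟨ρ₀, 2 * Γ₀, hρ, by linarith, fun δ hδ hδρ => ?_⟩
  obtain ⟨A', hA', h1⟩ := hps δ hδ hδρ
  obtain ⟨N, hN, e, he, h2⟩ := h1 (1 / 16) (by norm_num)
  have hN0 : (0 : ℝ) < N := by exact_mod_cast hN
  refine ⟨1 / (2 * A'), Real.log 2 / N, e, by positivity,
    div_pos (Real.log_pos (by norm_num)) hN0, he, fun c hc y n hy1 hy2 => ?_⟩
  obtain ⟨k1, k2, k3⟩ := h2 c hc
  set q := n / N with hq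
  set t := n % N with ht
  have hn : t + N * q = n := Nat.mod_add_div n N
  have htN : t < N := Nat.mod_lt _ hN
  have hblocks := free_blocks hd hδ k2 q y (fun j hj => hy1 j (by omega))
    (fun j hj => hy2 j (by omega))
  have hexp : Real.exp (Real.log 2 / N * n) ≤ 2 * 4 ^ q := by
    have e1 : Real.log 2 / N * n ≤ Real.log 2 * (q + 1 : ℕ) := by
      rw [div_mul_eq_mul_div, div_le_iff₀ hN0, mul_assoc]
      refine mul_le_mul_of_nonneg_left ?_ (Real.log_nonneg (by norm_num))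
      have : n ≤ (q + 1) * N := by
        rw [← hn]
        nlinarith
      exact_mod_cast this
    have e2 : Real.exp (Real.log 2 * (q + 1 : ℕ)) = 2 ^ (q + 1) := by
      rw [mul_comm, Real.exp_nat_mul, Real.exp_log (by norm_num)]
    calc Real.exp (Real.log 2 / N * n) ≤ Real.exp (Real.log 2 * (q + 1 : ℕ)) :=
          Real.exp_le_exp.2 e1
      _ = 2 * 2 ^ q := by rw [e2, pow_succ]; ring
      _ ≤ 2 * 4 ^ q := by
          have : (2 : ℝ) ^ q ≤ 4 ^ q := pow_le_pow_left₀ (by norm_num) (by norm_num) q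
          linarith
  have hlast1 : ∀ j < t, 2 * δ ≤ ‖(f d c)^[j] ((f d c)^[N * q] y)‖ := by
    intro j hj
    rw [← Function.iterate_add_apply]
    exact hy1 _ (by omega)
  have hlast2 : (f d c)^[t] ((f d c)^[N * q] y) = (f d c)^[n] y := by
    rw [← Function.iterate_add_apply, hn]
  have hfac : ‖deriv ((f d c)^[n]) y‖ = ‖deriv ((f d c)^[t]) ((f d c)^[N * q] y)‖ *
      ‖deriv ((f d c)^[N * q]) y‖ := by
    rw [← norm_mul, ← deriv_iter_add, hn]
  have h4q : (0 : ℝ) < 4 ^ q := by positivity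
  constructor
  · have h3 : 1 / A' ≤ ‖deriv ((f d c)^[t]) ((f d c)^[N * q] y)‖ := by
      refine free_block hd hδ (a := A') (by positivity) ?_ hlast1 ?_
      · have : A' * (1 / A') ^ 2 = 1 / A' := by field_simp
        rw [this, div_le_one (by linarith)]
        exact hA'
      · rw [hlast2]
        exact k3 t htN.le _ (hy2 n le_rfl)
    rw [hfac]
    calc 1 / (2 * A') * Real.exp (Real.log 2 / N * n) ≤ 1 / (2 * A') * (2 * 4 ^ q) :=
          mul_le_mul_of_nonneg_left hexp (by positivity)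
      _ = 1 / A' * 4 ^ q := by field_simp
      _ ≤ _ := mul_le_mul h3 hblocks h4q.le (norm_nonneg _)
  · intro hend
    have h3 : 1 / Γ₀ ≤ ‖deriv ((f d c)^[t]) ((f d c)^[N * q] y)‖ := by
      refine free_block hd hδ (a := Γ₀) (by positivity) ?_ hlast1 ?_
      · have : Γ₀ * (1 / Γ₀) ^ 2 = 1 / Γ₀ := by field_simp
        rw [this, div_le_one (by linarith)]
        exact hΓ
      · rw [hlast2]
        have h5 := k1 ((f d c)^[n] y) (by linarith)
        refine le_trans ?_ h5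
        exact Finset.single_le_sum (f := fun j => psi d δ c j ((f d c)^[n] y))
          (fun j _ => psi_nonneg hδ c j _) (Finset.mem_range.2 (by omega))
    rw [hfac]
    calc Real.exp (Real.log 2 / N * n) ≤ 2 * 4 ^ q := hexp
      _ = 2 * Γ₀ * (1 / Γ₀ * 4 ^ q) := by field_simp
      _ ≤ _ := by
          refine mul_le_mul_of_nonneg_left ?_ (by positivity)
          exact mul_le_mul h3 hblocks h4q.le (norm_nonneg _)

end Pool.Agent.N253.SM
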