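import Mathlib
import Pool.Agent.N253.SM.Stm

/-!
# Propagation of the difference of two orbits (project SM, task FWD; helper319)
-/

set_option autoImplicit false

open Set Filter Metric Topology

namespace Pool.Agent.N253.SM

open Pool.Agent.TH279.MD Pool.Agent.Y298.SH Pool.Agent.Y298.SH.CD Pool.Agent.Y298.CA

lemma fwd_pow {a b : ℂ} {M : ℝ} (ha : ‖a‖ ≤ M) (hb : ‖b‖ ≤ M) (m : ℕ) :
    ‖a ^ (m + 1) - b ^ (m + 1)‖ ≤ (m + 1 : ℕ) * M ^ m * ‖a - b‖ := by
  have hM : 0 ≤ M := (norm_nonneg a).trans ha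
  induction m with
  | zero => simp
  | succ m ih =>
    have e : a ^ (m + 1 + 1) - b ^ (m + 1 + 1) =
        a * (a ^ (m + 1) - b ^ (m + 1)) + (a - b) * b ^ (m + 1) := by ring
    rw [e]
    refine (norm_add_le _ _).trans ?_
    rw [norm_mul, norm_mul, norm_pow]
    have h1 : ‖a‖ * ‖a ^ (m + 1) - b ^ (m + 1)‖ ≤ M * ((m + 1 : ℕ) * M ^ m * ‖a - b‖) :=
      mul_le_mul ha ih (norm_nonneg _) hM
    have h2 : ‖a - b‖ * ‖b‖ ^ (m + 1) ≤ ‖a - b‖ * M ^ (m + 1) :=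
      mul_le_mul_of_nonneg_left (pow_le_pow_left₀ (norm_nonneg _) hb _) (norm_nonneg _)
    refine (add_le_add h1 h2).trans (le_of_eq ?_)
    push_cast
    ring

theorem t_FWD : S_FWD := by
  intro d C₁ lam θ B Ca hd hθ hPC
  have hθ0 : 0 < θ := by linarith
  have hθi : θ⁻¹ < 1 := inv_lt_one_of_one_lt₀ hθ
  have hθi0 : 0 < θ⁻¹ := inv_pos.2 hθ0
  have hX0 : 0 ≤ ((d : ℝ) - 1) * (1 - θ⁻¹)⁻¹ := by
    have h2 : (2 : ℝ) ≤ d := by exact_mod_cast hd
    have h3 : 0 < (1 - θ⁻¹)⁻¹ := inv_pos.2 (by linarith)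
    exact mul_nonneg (by linarith) h3.le
  refine ⟨Real.exp (((d : ℝ) - 1) * (1 - θ⁻¹)⁻¹), Real.one_le_exp hX0, ?_⟩
  intro c₀ hCE s k n hs hkn hj c c' x x' hc hc' hx hx'
  have hB0 : 0 ≤ B := by linarith [hPC.Ca1, hPC.CaB]
  set z := zz d c₀ with hz
  set p := Pd d c₀ with hp
  have hp0 : ∀ j, 0 < p j := fun j => hCE.Pd_pos j
  set a := fun j => (f d c)^[j] x with ha
  set b := fun j => (f d c')^[j] x' with hb
  -- the size of the orbits
  have size : ∀ (c y : ℂ), ‖c - c₀‖ ≤ s → y ∈ ball c s → ∀ j < n,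
      ‖(f d c)^[j] y‖ ≤ (1 + θ⁻¹ ^ j) * ‖z j‖ := by
    intro c y hc hy j hjn
    have h1 := (hPC.pass c₀ hCE c s n hs hc hj y hy j hjn.le).1
    have h2 : Ca * s * p j ≤ θ⁻¹ ^ j * ‖z j‖ := by
      calc Ca * s * p j ≤ B * s * p j :=
            mul_le_mul_of_nonneg_right (mul_le_mul_of_nonneg_right hPC.CaB hs.le) (hp0 j).le
        _ = θ⁻¹ ^ j * (B * θ ^ j * s * p j) := by
            rw [inv_pow]
            field_simp
        _ ≤ θ⁻¹ ^ j * ‖z j‖ := mul_le_mul_of_nonneg_left (hj j hjn) (by positivity)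
    have h3 : ‖(f d c)^[j] y‖ ≤ ‖z j‖ + ‖(f d c)^[j] y - z j‖ := by
      have := norm_add_le (z j) ((f d c)^[j] y - z j)
      rwa [add_sub_cancel] at this
    linarith
  -- one step
  have step : ∀ j < n, ‖a (j + 1) - b (j + 1)‖ / p (j + 1) ≤
      (1 + θ⁻¹ ^ j) ^ (d - 1) * (‖a j - b j‖ / p j) + ‖c - c'‖ / p (j + 1) := by
    intro j hjn
    obtain ⟨m, rfl⟩ : ∃ m, d = m + 1 := ⟨d - 1, by omega⟩
    have e1 : a (j + 1) - b (j + 1) = (a j ^ (m + 1) - b j ^ (m + 1)) + (c - c') := by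
      simp only [ha, hb]
      rw [Function.iterate_succ_apply', Function.iterate_succ_apply']
      unfold f
      ring
    have h1 : ‖a (j + 1) - b (j + 1)‖ ≤
        (m + 1 : ℕ) * ((1 + θ⁻¹ ^ j) * ‖z j‖) ^ m * ‖a j - b j‖ + ‖c - c'‖ := by
      rw [e1]
      exact (norm_add_le _ _).trans (add_le_add (fwd_pow (size c x hc hx j hjn)
        (size c' x' hc' hx' j hjn) m) le_rfl)
    have h2 : p (j + 1) = (m + 1 : ℕ) * ‖z j‖ ^ m * p j := by
      have := Pd_succ (m + 1) c₀ j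
      simpa using this
    have hz0 : 0 < ‖z j‖ := norm_pos_iff.2 (hCE.zz_ne j)
    have hpj := hp0 j
    calc ‖a (j + 1) - b (j + 1)‖ / p (j + 1)
        ≤ ((m + 1 : ℕ) * ((1 + θ⁻¹ ^ j) * ‖z j‖) ^ m * ‖a j - b j‖ + ‖c - c'‖) / p (j + 1) :=
          div_le_div_of_nonneg_right h1 (hp0 _).le
      _ = (1 + θ⁻¹ ^ j) ^ (m + 1 - 1) * (‖a j - b j‖ / p j) + ‖c - c'‖ / p (j + 1) := by
          rw [add_div, Nat.add_sub_cancel]
          congr 1
          rw [h2, mul_pow]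
          have : ((m + 1 : ℕ) : ℝ) ≠ 0 := by positivity
          field_simp
  have hq1 : ∀ j : ℕ, 1 ≤ (1 + θ⁻¹ ^ j) ^ (d - 1) := fun j => one_le_pow₀ (by
    have : 0 < θ⁻¹ ^ j := by positivity
    linarith)
  -- the product
  have main : ∀ m, k ≤ m → m ≤ n → ‖a m - b m‖ / p m ≤
      (∏ j ∈ Finset.Ico k m, (1 + θ⁻¹ ^ j) ^ (d - 1)) * (‖a k - b k‖ / p k +
        ‖c - c'‖ * ∑ i ∈ Finset.Ico k m, 1 / p (i + 1)) := by
    intro m hm
    induction m, hm using Nat.le_induction with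
    | base => intro _; simp
    | succ m hm ih =>
      intro hmn
      have h1 := ih (by omega)
      have h2 := step m (by omega)
      rw [Finset.prod_Ico_succ_top hm, Finset.sum_Ico_succ_top hm]
      set W := ∏ j ∈ Finset.Ico k m, (1 + θ⁻¹ ^ j) ^ (d - 1) with hW
      set q := (1 + θ⁻¹ ^ m) ^ (d - 1) with hq
      set S := ∑ i ∈ Finset.Ico k m, 1 / p (i + 1) with hS
      have hW1 : 1 ≤ W := by
        rw [hW]
        have := Finset.prod_le_prod (s := Finset.Ico k m) (f := fun _ => (1 : ℝ))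
          (g := fun j => (1 + θ⁻¹ ^ j) ^ (d - 1)) (fun _ _ => zero_le_one) (fun j _ => hq1 j)
        simpa using this
      have hqq : 1 ≤ q := hq1 m
      have hg : 0 ≤ ‖c - c'‖ / p (m + 1) := div_nonneg (norm_nonneg _) (hp0 _).le
      have h3 : q * (‖a m - b m‖ / p m) ≤ q * (W * (‖a k - b k‖ / p k + ‖c - c'‖ * S)) :=
        mul_le_mul_of_nonneg_left h1 (by linarith)
      have h4 : ‖c - c'‖ / p (m + 1) ≤ W * q * (‖c - c'‖ / p (m + 1)) :=
        le_mul_of_one_le_left hg (one_le_mul_of_one_le_of_one_le hW1 hqq)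
      calc ‖a (m + 1) - b (m + 1)‖ / p (m + 1)
          ≤ q * (W * (‖a k - b k‖ / p k + ‖c - c'‖ * S)) +
            W * q * (‖c - c'‖ / p (m + 1)) := by linarith
        _ = _ := by ring
  have hprod : (∏ j ∈ Finset.Ico k n, (1 + θ⁻¹ ^ j) ^ (d - 1)) ≤
      Real.exp (((d : ℝ) - 1) * (1 - θ⁻¹)⁻¹) := by
    have h1 : (∏ j ∈ Finset.Ico k n, (1 + θ⁻¹ ^ j) ^ (d - 1)) ≤
        ∏ j ∈ Finset.Ico k n, Real.exp (((d : ℝ) - 1) * θ⁻¹ ^ j) := by
      refine Finset.prod_le_prod (fun j _ => by positivity) (fun j _ => ?_)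
      have h2 : 1 + θ⁻¹ ^ j ≤ Real.exp (θ⁻¹ ^ j) := by
        rw [add_comm]
        exact Real.add_one_le_exp _
      calc (1 + θ⁻¹ ^ j) ^ (d - 1) ≤ Real.exp (θ⁻¹ ^ j) ^ (d - 1) :=
            pow_le_pow_left₀ (by positivity) h2 _
        _ = Real.exp (((d : ℝ) - 1) * θ⁻¹ ^ j) := by
            rw [← Real.exp_nat_mul, Nat.cast_sub (by omega)]
            simp
    refine h1.trans ?_
    rw [← Real.exp_sum, ← Finset.mul_sum]
    refine Real.exp_le_exp.2 (mul_le_mul_of_nonneg_left ?_ ?_)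
    · rw [← tsum_geometric_of_lt_one hθi0.le hθi]
      exact (summable_geometric_of_lt_one hθi0.le hθi).sum_le_tsum _ (fun j _ => by positivity)
    · have h2 : (2 : ℝ) ≤ d := by exact_mod_cast hd
      linarith
  have hfin := main n hkn le_rfl
  rw [div_le_iff₀ (hp0 n)] at hfin
  have hE : 0 ≤ ‖a k - b k‖ / p k + ‖c - c'‖ * ∑ i ∈ Finset.Ico k n, 1 / p (i + 1) := by
    refine add_nonneg (div_nonneg (norm_nonneg _) (hp0 _).le) (mul_nonneg (norm_nonneg _) ?_)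
    exact Finset.sum_nonneg fun i _ => by
      have := hp0 (i + 1)
      positivity
  refine hfin.trans ?_
  have h5 := mul_le_mul_of_nonneg_right hprod hE
  have h6 := mul_le_mul_of_nonneg_right h5 (hp0 n).le
  refine h6.trans (le_of_eq ?_)
  ring

end Pool.Agent.N253.SM
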