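import Mathlib
import Pool.Agent.N253.SM.Stm
import Pool.Agent.Y674.CA.Lya
import Pool.Agent.Y434.CA.Pa
import Pool.Agent.Y298.CD.Grw

/-!
# Linearisation at the scale `r` (S_LIN from S_FWD and S_TAY)

Project SM (helper253); this file by helper222.
-/

set_option autoImplicit false

open Set Filter Metric Topology

namespace Pool.Agent.N253.SM

open Pool.Agent.TH279.MD Pool.Agent.Y298.SH Pool.Agent.Y298.SH.CD Pool.Agent.Y298.CA
open Pool.Agent.H712R2 (P)

/-- The tails of the series `∑ bb`. -/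
theorem lin_tail {d : ℕ} {c₀ : ℂ} {C q : ℝ} (hC : 0 ≤ C) (hq0 : 0 < q) (hq1 : q < 1)
    (hb : ∀ n, ‖bb d c₀ n‖ ≤ C * q ^ n) (hs : Summable fun n => ‖bb d c₀ n‖) (k n : ℕ) :
    ‖(∑' j, bb d c₀ j) - ∑ j ∈ Finset.range (k + 1), bb d c₀ j‖ ≤ C / (1 - q) * q ^ (k + 1) ∧
    ∑ i ∈ Finset.Ico k n, 1 / Pd d c₀ (i + 1) ≤ C / (1 - q) * q ^ (k + 1) := by
  have hgeo : HasSum (fun j : ℕ => C * q ^ (k + 1) * q ^ j) (C * q ^ (k + 1) * (1 - q)⁻¹) :=
    (hasSum_geometric_of_lt_one hq0.le hq1).mul_left _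
  have he : C * q ^ (k + 1) * (1 - q)⁻¹ = C / (1 - q) * q ^ (k + 1) := by
    rw [div_eq_mul_inv]; ring
  rw [← he]
  have hb' : ∀ j, ‖bb d c₀ (j + (k + 1))‖ ≤ C * q ^ (k + 1) * q ^ j := fun j => by
    refine (hb _).trans (le_of_eq ?_)
    rw [pow_add]; ring
  constructor
  · have h1 := hs.of_norm.sum_add_tsum_nat_add (k + 1)
    have h2 : (∑' j, bb d c₀ j) - ∑ j ∈ Finset.range (k + 1), bb d c₀ j =
        ∑' j, bb d c₀ (j + (k + 1)) := by
      rw [← h1]; ring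
    rw [h2]
    exact tsum_of_norm_bounded hgeo hb'
  · rw [Finset.sum_Ico_eq_sum_range]
    refine le_trans (Finset.sum_le_sum fun i _ => ?_)
      (sum_le_hasSum (Finset.range (n - k)) (fun i _ => by positivity) hgeo)
    have h3 := hb' i
    rw [norm_bb] at h3
    rw [one_div]
    have e1 : k + i + 1 = i + (k + 1) := by omega
    rw [e1]
    exact h3

/-- The difference at the time `k`. -/
theorem lin_time_k {d : ℕ} {C₁ lam θ B Ca : ℝ} (h2 : S_TAY) (hd : 2 ≤ d)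
    (hPC : PC d C₁ lam θ B Ca) {c₀ : ℂ} (hCE : CEp d C₁ lam c₀) {L : ℂ} {R r K : ℝ} {k : ℕ}
    (hR : 0 < R) (hrR : (1 + ‖L‖) * r < R / 2)
    (hpass : ∀ j < k, B * θ ^ j * R * Pd d c₀ j ≤ ‖zz d c₀ j‖)
    (htail : ‖L - ∑ j ∈ Finset.range (k + 1), bb d c₀ j‖ ≤ K) {t : ℂ} (ht : ‖t‖ ≤ r) :
    ‖(f d c₀)^[k] (c₀ + L * t) - (f d (c₀ + t))^[k] (c₀ + t)‖ ≤
      Pd d c₀ k * (4 * Ca * (1 + ‖L‖ ^ 2) * (r ^ 2 / R) + K * r) := by
  have hr : 0 ≤ r := (norm_nonneg _).trans ht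
  have hCa : 0 ≤ Ca := by linarith [hPC.Ca1]
  have hPk := hCE.Pd_pos k
  have hne : ∀ c ∈ ball c₀ R, ∀ j ≤ k, deriv ((f d c)^[j]) c ≠ 0 := by
    intro c hc j hj
    have h3 := hPC.pass c₀ hCE c R k hR (by
      rw [mem_ball, dist_eq_norm] at hc; exact hc.le) hpass c (mem_ball_self hR) j hj
    have h4 := hCE.Pd_pos j
    rw [← norm_pos_iff]
    linarith [h3.2.1]
  -- the parameter map
  have hA : ‖(f d (c₀ + t))^[k] (c₀ + t) - (f d c₀)^[k] c₀ -
      (deriv ((f d c₀)^[k]) c₀ * ∑ j ∈ Finset.range (k + 1), bb d c₀ j) * t‖ ≤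
      4 * (Ca * R * Pd d c₀ k) * (r / R) ^ 2 := by
    have h3 := h2 (fun c => (f d c)^[k] c) c₀ R (Ca * R * Pd d c₀ k) hR
      (fun c hc => (der_sum d hd c k (hne c hc)).differentiableAt.differentiableWithinAt)
      (fun c hc => by
        have h4 := hPC.pass c₀ hCE c R k hR (by
          rw [mem_ball, dist_eq_norm] at hc; exact hc.le) hpass c (mem_ball_self hR) k le_rfl
        exact h4.1) (c₀ + t) (by
          rw [mem_ball, dist_eq_norm, add_sub_cancel_left]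
          linarith [mul_nonneg (norm_nonneg L) hr])
    rw [(der_sum d hd c₀ k (hne c₀ (mem_ball_self hR))).deriv, add_sub_cancel_left] at h3
    refine h3.trans ?_
    gcongr
  have hB : ‖(f d c₀)^[k] (c₀ + L * t) - (f d c₀)^[k] c₀ -
      deriv ((f d c₀)^[k]) c₀ * (L * t)‖ ≤
      4 * (Ca * R * Pd d c₀ k) * (‖L‖ * r / R) ^ 2 := by
    have h3 := h2 ((f d c₀)^[k]) c₀ R (Ca * R * Pd d c₀ k) hR
      ((differentiable_fn d c₀ k).differentiableOn)
      (fun x hx => by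
        have h4 := hPC.pass c₀ hCE c₀ R k hR (by
          rw [sub_self, norm_zero]; exact hR.le) hpass x hx k le_rfl
        exact h4.1) (c₀ + L * t) (by
          rw [mem_ball, dist_eq_norm, add_sub_cancel_left, norm_mul]
          linarith [mul_le_mul_of_nonneg_left ht (norm_nonneg L)])
    rw [add_sub_cancel_left, norm_mul] at h3
    refine h3.trans ?_
    gcongr
  have hC : ‖deriv ((f d c₀)^[k]) c₀ * (L * t) -
      (deriv ((f d c₀)^[k]) c₀ * ∑ j ∈ Finset.range (k + 1), bb d c₀ j) * t‖ ≤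
      Pd d c₀ k * (K * r) := by
    have e1 : deriv ((f d c₀)^[k]) c₀ * (L * t) -
        (deriv ((f d c₀)^[k]) c₀ * ∑ j ∈ Finset.range (k + 1), bb d c₀ j) * t =
        deriv ((f d c₀)^[k]) c₀ * ((L - ∑ j ∈ Finset.range (k + 1), bb d c₀ j) * t) := by ring
    rw [e1, norm_mul, norm_mul]
    change Pd d c₀ k * _ ≤ _
    have hK : 0 ≤ K := (norm_nonneg _).trans htail
    gcongr
  set w := (f d c₀)^[k] c₀
  set D := deriv ((f d c₀)^[k]) c₀
  set S := ∑ j ∈ Finset.range (k + 1), bb d c₀ j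
  have hE : (f d c₀)^[k] (c₀ + L * t) - (f d (c₀ + t))^[k] (c₀ + t) =
      ((f d c₀)^[k] (c₀ + L * t) - w - D * (L * t)) -
      ((f d (c₀ + t))^[k] (c₀ + t) - w - (D * S) * t) + (D * (L * t) - (D * S) * t) := by ring
  rw [hE]
  refine (norm_add_le _ _).trans ?_
  refine (add_le_add ((norm_sub_le _ _).trans (add_le_add hB hA)) hC).trans (le_of_eq ?_)
  field_simp
  ring

theorem t_LIN (h1 : S_FWD) (h2 : S_TAY) : S_LIN := by
  intro d χ c₀ hd hLy ε hε0 hε1
  have hχ : 0 < χ := hLy.1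
  obtain ⟨⟨C₁, lam, hCE⟩, hly⟩ := Pool.Agent.Y674.CA.lya d χ c₀ hd hLy
  obtain ⟨e, he⟩ : ∃ e : ℝ, e = ε * χ / 100 := ⟨_, rfl⟩
  have he0 : 0 < e := by rw [he]; positivity
  have heχ : e ≤ χ / 200 := by rw [he]; nlinarith
  obtain ⟨C, hC1, hC⟩ := hly e he0
  have hθ : 1 < Real.exp e := Real.one_lt_exp_iff.mpr he0
  obtain ⟨B, Ca, hPC⟩ := Pool.Agent.Y434.CA.pa d C₁ lam (Real.exp e) hd hCE.C1 hCE.lam1 hθ
  obtain ⟨CF, hCF1, hCF⟩ := h1 d C₁ lam (Real.exp e) B Ca hd hθ hPC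
  obtain ⟨κ, εg, J, hκ, hεg, hg⟩ := hCE.grow
  have hCa1 := hPC.Ca1
  have hB1 : 1 ≤ B := hPC.Ca1.trans hPC.CaB
  set L : ℂ := ∑' k, bb d c₀ k with hL
  set S : ℝ := 4 + 4 * ‖L‖ with hS
  have hS4 : 4 ≤ S := by have := norm_nonneg L; linarith
  set q : ℝ := Real.exp (-(χ - e)) with hq
  have hq0 : 0 < q := Real.exp_pos _
  have hq1 : q < 1 := by rw [hq, Real.exp_lt_one_iff]; linarith
  have hqpow : ∀ m : ℕ, q ^ m = Real.exp (-((χ - e) * m)) := fun m => by
    rw [hq, ← Real.exp_nat_mul]; congr 1; ring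
  have hbb : ∀ m, ‖bb d c₀ m‖ ≤ C * q ^ m := by
    intro m
    have h3 := (hC m).1
    have h4 := hCE.Pd_pos m
    rw [norm_bb, hqpow, Real.exp_neg, ← div_eq_mul_inv, inv_le_iff_one_le_mul₀ h4,
      div_mul_eq_mul_div, le_div_iff₀ (Real.exp_pos _)]
    linarith
  set K₁ : ℝ := C / (1 - q) with hK₁
  have hK₁0 : 0 < K₁ := div_pos (by linarith) (by linarith)
  -- the big constant
  set K : ℝ := B * S * C ^ 2 + Ca * S * C + B * C ^ 2 + (2 * (1 + ‖L‖) + 1) +
    CF * C * (4 * Ca * (1 + ‖L‖ ^ 2) + 2 * K₁) + C * Real.exp χ * (2 + 1 / κ) with hK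
  have p1 : 0 ≤ B * S * C ^ 2 := by positivity
  have p2 : 0 ≤ Ca * S * C := by positivity
  have p3 : 0 ≤ B * C ^ 2 := by positivity
  have p4 : 0 ≤ 2 * (1 + ‖L‖) + 1 := by positivity
  have p5 : 0 ≤ CF * C * (4 * Ca * (1 + ‖L‖ ^ 2) + 2 * K₁) := by positivity
  have p6 : 0 ≤ C * Real.exp χ * (2 + 1 / κ) := by positivity
  have hK1 : B * S * C ^ 2 ≤ K := by rw [hK]; linarith
  have hK2 : Ca * S * C ≤ K := by rw [hK]; linarith
  have hK3 : B * C ^ 2 ≤ K := by rw [hK]; linarith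
  have hK4 : 2 * (1 + ‖L‖) + 1 ≤ K := by rw [hK]; linarith
  have hK5 : CF * C * (4 * Ca * (1 + ‖L‖ ^ 2) + 2 * K₁) ≤ K := by rw [hK]; linarith
  have hK6 : C * Real.exp χ * (2 + 1 / κ) ≤ K := by rw [hK]; linarith
  have hK0 : 0 < K := by have := norm_nonneg L; linarith
  -- the scale
  set X₀ : ℝ := max (max 0 (Real.log K * (10 / ε))) (max (Real.log (2 / εg)) ((J + 1) * (2 * χ)))
    with hX₀
  refine ⟨Real.exp (-X₀), Real.exp_pos _, ?_⟩
  intro r hr0 hrX
  obtain ⟨X, hX⟩ : ∃ X : ℝ, X = -Real.log r := ⟨_, rfl⟩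
  have hrexp : r = Real.exp (-X) := by rw [hX, neg_neg, Real.exp_log hr0]
  have hXX : X₀ ≤ X := by
    rw [hrexp, Real.exp_le_exp] at hrX
    linarith
  have hX0 : 0 ≤ X := ((le_max_left _ _).trans (le_max_left _ _)).trans hXX
  have hXK : K ≤ Real.exp (ε / 10 * X) := by
    have h3 : Real.log K * (10 / ε) ≤ X := ((le_max_right _ _).trans (le_max_left _ _)).trans hXX
    rw [← Real.log_le_iff_le_exp hK0]
    rw [mul_div_assoc', div_le_iff₀ hε0] at h3
    linarith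
  have hXg : 2 * r ≤ εg := by
    have h3 : Real.log (2 / εg) ≤ X := ((le_max_left _ _).trans (le_max_right _ _)).trans hXX
    rw [Real.log_le_iff_le_exp (by positivity), div_le_iff₀ hεg] at h3
    rw [hrexp, Real.exp_neg]
    rw [← div_eq_mul_inv, div_le_iff₀ (Real.exp_pos _)]
    linarith
  have hXJ : (J + 1) * (2 * χ) ≤ X := ((le_max_right _ _).trans (le_max_right _ _)).trans hXX
  have hrpow : ∀ y : ℝ, r ^ y = Real.exp (-X * y) := fun y => by
    rw [Real.rpow_def_of_pos hr0, hX, neg_neg]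
  -- monotonicity for exponentials of X
  have hsmall : ∀ (A a : ℝ), A ≤ K → ε / 10 ≤ a → A * Real.exp (-(a * X)) ≤ 1 := by
    intro A a hA ha
    have h3 : Real.exp (-(a * X)) ≤ Real.exp (-(ε / 10 * X)) := by
      rw [Real.exp_le_exp]
      linarith [mul_le_mul_of_nonneg_right ha hX0]
    calc A * Real.exp (-(a * X)) ≤ K * Real.exp (-(a * X)) := by gcongr
      _ ≤ K * Real.exp (-(ε / 10 * X)) := by gcongr
      _ ≤ Real.exp (ε / 10 * X) * Real.exp (-(ε / 10 * X)) := by gcongr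
      _ = 1 := by rw [← Real.exp_add, add_neg_cancel, Real.exp_zero]
  -- the times
  set n : ℕ := ⌊(1 - ε / 2) * X / (χ + 3 * e)⌋₊ with hn
  set k : ℕ := ⌊X / (2 * χ)⌋₊ with hk
  have hn1 : (n : ℝ) * (χ + 3 * e) ≤ (1 - ε / 2) * X := by
    have h3 : (n : ℝ) ≤ (1 - ε / 2) * X / (χ + 3 * e) :=
      Nat.floor_le (div_nonneg (mul_nonneg (by linarith) hX0) (by linarith))
    rwa [le_div_iff₀ (by linarith)] at h3
  have hn2 : (1 - ε / 2) * X ≤ ((n : ℝ) + 1) * (χ + 3 * e) := by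
    have h3 := (Nat.lt_floor_add_one ((1 - ε / 2) * X / (χ + 3 * e))).le
    rwa [div_le_iff₀ (by linarith)] at h3
  have hk1 : (k : ℝ) * (2 * χ) ≤ X := by
    have h3 : (k : ℝ) ≤ X / (2 * χ) := Nat.floor_le (by positivity)
    rwa [le_div_iff₀ (by positivity)] at h3
  have hk2 : X ≤ ((k : ℝ) + 1) * (2 * χ) := by
    have h3 := (Nat.lt_floor_add_one (X / (2 * χ))).le
    rwa [div_le_iff₀ (by positivity)] at h3
  have hkn : k ≤ n := by
    apply Nat.floor_mono
    rw [div_le_div_iff₀ (by positivity) (by linarith)]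
    have h3 : χ + 3 * e ≤ (1 - ε / 2) * (2 * χ) := by
      linarith [mul_lt_mul_of_pos_right hε1 hχ]
    calc X * (χ + 3 * e) ≤ X * ((1 - ε / 2) * (2 * χ)) := by gcongr
      _ = _ := by ring
  have hJn : J ≤ n := by
    refine le_trans ?_ hkn
    apply Nat.le_floor
    rw [le_div_iff₀ (by positivity)]
    linarith
  -- the passage conditions
  have hpassgen : ∀ (ρ : ℝ) (m : ℕ), 0 < ρ →
      B * C ^ 2 * ρ * Real.exp ((χ + 3 * e) * m) ≤ 1 →
      ∀ j < m, B * Real.exp e ^ j * ρ * Pd d c₀ j ≤ ‖zz d c₀ j‖ := by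
    intro ρ m hρ hm j hj
    have h3 := (hC j).2.1
    have h4 := (hC j).2.2
    have hjm : (j : ℝ) ≤ m := by exact_mod_cast hj.le
    have e1 : Real.exp e ^ j = Real.exp (e * j) := by rw [← Real.exp_nat_mul]; congr 1; ring
    have hCpos : 0 < C := by linarith
    have h5 : B * Real.exp e ^ j * ρ * Pd d c₀ j * (C * Real.exp (e * j)) ≤ 1 := by
      calc B * Real.exp e ^ j * ρ * Pd d c₀ j * (C * Real.exp (e * j))
          ≤ B * Real.exp e ^ j * ρ * (C * Real.exp ((χ + e) * j)) * (C * Real.exp (e * j)) := by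
            gcongr
        _ = B * C ^ 2 * ρ * Real.exp ((χ + 3 * e) * j) := by
            rw [e1]
            have : Real.exp ((χ + 3 * e) * j) =
                Real.exp (e * j) * Real.exp ((χ + e) * j) * Real.exp (e * j) := by
              rw [← Real.exp_add, ← Real.exp_add]; congr 1; ring
            rw [this]; ring
        _ ≤ B * C ^ 2 * ρ * Real.exp ((χ + 3 * e) * m) := by
            have : (χ + 3 * e) * j ≤ (χ + 3 * e) * m := by gcongr
            gcongr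
        _ ≤ 1 := hm
    have h6 : 0 < C * Real.exp (e * j) := by positivity
    by_contra hcon
    rw [not_le] at hcon
    have h7 := mul_lt_mul_of_pos_right hcon h6
    have h8 : ‖zz d c₀ j‖ * (C * Real.exp (e * j)) = C * Real.exp (e * j) * ‖zz d c₀ j‖ := by ring
    linarith
  have hpassn : ∀ j < n, B * Real.exp e ^ j * (S * r) * Pd d c₀ j ≤ ‖zz d c₀ j‖ := by
    apply hpassgen (S * r) n (by positivity)
    have h3 : Real.exp ((χ + 3 * e) * n) ≤ Real.exp ((1 - ε / 2) * X) := by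
      rw [Real.exp_le_exp]; linarith
    calc B * C ^ 2 * (S * r) * Real.exp ((χ + 3 * e) * n)
        ≤ B * C ^ 2 * (S * r) * Real.exp ((1 - ε / 2) * X) := by gcongr
      _ = B * S * C ^ 2 * Real.exp (-(ε / 2 * X)) := by
          rw [hrexp]
          have : Real.exp (-(ε / 2 * X)) = Real.exp (-X) * Real.exp ((1 - ε / 2) * X) := by
            rw [← Real.exp_add]; congr 1; ring
          rw [this]; ring
      _ ≤ 1 := hsmall _ _ hK1 (by linarith)
  obtain ⟨R, hR⟩ : ∃ R : ℝ, R = Real.exp (-((1 / 2 + ε / 8) * X)) := ⟨_, rfl⟩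
  have hR0 : 0 < R := by rw [hR]; exact Real.exp_pos _
  have hpassk : ∀ j < k, B * Real.exp e ^ j * R * Pd d c₀ j ≤ ‖zz d c₀ j‖ := by
    apply hpassgen R k hR0
    have h3 : Real.exp ((χ + 3 * e) * k) ≤ Real.exp ((1 / 2 + 3 * ε / 200) * X) := by
      rw [Real.exp_le_exp]
      have h4 : (χ + 3 * e) * k = (k * (2 * χ)) * (1 / 2 + 3 * ε / 200) := by
        rw [he]; ring
      rw [h4]
      calc (k * (2 * χ)) * (1 / 2 + 3 * ε / 200) ≤ X * (1 / 2 + 3 * ε / 200) := by gcongr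
        _ = _ := by ring
    calc B * C ^ 2 * R * Real.exp ((χ + 3 * e) * k)
        ≤ B * C ^ 2 * R * Real.exp ((1 / 2 + 3 * ε / 200) * X) := by gcongr
      _ = B * C ^ 2 * Real.exp (-((ε / 8 - 3 * ε / 200) * X)) := by
          rw [hR]
          have : Real.exp (-((ε / 8 - 3 * ε / 200) * X)) =
              Real.exp (-((1 / 2 + ε / 8) * X)) * Real.exp ((1 / 2 + 3 * ε / 200) * X) := by
            rw [← Real.exp_add]; congr 1; ring
          rw [this]; ring
      _ ≤ 1 := hsmall _ _ hK3 (by linarith)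
  -- bounds for Pd n
  have hPn := hCE.Pd_pos n
  have hPup : Pd d c₀ n ≤ C * Real.exp ((1 - ε / 2) * X) := by
    refine (hC n).2.1.trans ?_
    have h3 : (χ + e) * n ≤ (1 - ε / 2) * X := by
      have : (χ + e) * n ≤ (χ + 3 * e) * n := by gcongr; linarith
      linarith
    gcongr
  have hPlow : (2 + 1 / κ) * r ^ (ε - 1) ≤ Pd d c₀ n := by
    have h3 := (hC n).1
    rw [hrpow]
    have h4 : (1 - ε / 2) * (1 - ε / 25) * X ≤ (χ - e) * n + χ := by
      have h5 : (1 - ε / 25) * (((n : ℝ) + 1) * (χ + 3 * e)) ≤ (χ - e) * n + χ := by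
        have h6 : (1 - ε / 25) * (χ + 3 * e) ≤ χ - e := by
          rw [he]
          linarith [mul_pos hε0 hχ, mul_pos (mul_pos hε0 hε0) hχ]
        have h7 : (0 : ℝ) ≤ (n : ℝ) + 1 := by positivity
        linarith [mul_le_mul_of_nonneg_left h6 h7]
      have h8 : 0 ≤ 1 - ε / 25 := by linarith
      linarith [mul_le_mul_of_nonneg_left hn2 h8]
    have h5 : (1 - ε + ε / 10) * X ≤ (χ - e) * n + χ := by
      refine le_trans ?_ h4
      gcongr
      linarith [sq_nonneg ε]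
    have h6 : Real.exp ((1 - ε + ε / 10) * X) ≤ C * Real.exp χ * Pd d c₀ n := by
      calc Real.exp ((1 - ε + ε / 10) * X) ≤ Real.exp ((χ - e) * n + χ) := by
            rw [Real.exp_le_exp]; exact h5
        _ = Real.exp ((χ - e) * n) * Real.exp χ := Real.exp_add _ _
        _ ≤ (C * Pd d c₀ n) * Real.exp χ := by gcongr
        _ = _ := by ring
    have h7 : C * Real.exp χ * (2 + 1 / κ) * Real.exp (-X * (ε - 1)) ≤
        Real.exp ((1 - ε + ε / 10) * X) := by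
      calc C * Real.exp χ * (2 + 1 / κ) * Real.exp (-X * (ε - 1))
          ≤ Real.exp (ε / 10 * X) * Real.exp (-X * (ε - 1)) := by
            gcongr
            exact hK6.trans hXK
        _ = _ := by rw [← Real.exp_add]; congr 1; ring
    have h8 : 0 < C * Real.exp χ := by positivity
    have h9 : C * Real.exp χ * ((2 + 1 / κ) * Real.exp (-X * (ε - 1))) ≤
        C * Real.exp χ * Pd d c₀ n := by
      calc _ = C * Real.exp χ * (2 + 1 / κ) * Real.exp (-X * (ε - 1)) := by ring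
        _ ≤ _ := h7.trans h6
    exact le_of_mul_le_mul_left h9 h8
  have hrp0 : 0 < r ^ (ε - 1) := Real.rpow_pos_of_pos hr0 _
  have hP2 : r ^ (ε - 1) ≤ Pd d c₀ n / 2 := by
    have h3 : 0 < 1 / κ * r ^ (ε - 1) := by positivity
    linarith
  have hPκ : r ^ (ε - 1) ≤ κ * Pd d c₀ n := by
    calc r ^ (ε - 1) = κ * (1 / κ * r ^ (ε - 1)) := by field_simp
      _ ≤ κ * ((2 + 1 / κ) * r ^ (ε - 1)) := by gcongr; linarith
      _ ≤ _ := by gcongr
  have hCaP : Ca * (S * r) * Pd d c₀ n ≤ 1 := by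
    calc Ca * (S * r) * Pd d c₀ n ≤ Ca * (S * r) * (C * Real.exp ((1 - ε / 2) * X)) := by gcongr
      _ = Ca * S * C * Real.exp (-(ε / 2 * X)) := by
          rw [hrexp]
          have : Real.exp (-(ε / 2 * X)) = Real.exp (-X) * Real.exp ((1 - ε / 2) * X) := by
            rw [← Real.exp_add]; congr 1; ring
          rw [this]; ring
      _ ≤ 1 := hsmall _ _ hK2 (by linarith)
  have hSr : 0 < S * r := by positivity
  have hpos3 : ∀ c x : ℂ, ‖c - c₀‖ ≤ S * r → x ∈ ball c (S * r) → ‖(f d c)^[n] x‖ ≤ 3 := by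
    intro c x hc hx
    have h3 := (hPC.pass c₀ hCE c (S * r) n hSr hc hpassn x hx n le_rfl).1
    have h4 := hCE.bd n
    have h5 : (f d c)^[n] x = ((f d c)^[n] x - zz d c₀ n) + zz d c₀ n := by ring
    rw [h5]
    refine (norm_add_le _ _).trans ?_
    linarith
  refine ⟨n, ?_, ?_, ?_⟩
  · -- the difference
    intro c hc
    obtain ⟨t, ht⟩ : ∃ t : ℂ, t = c - c₀ := ⟨_, rfl⟩
    have hct : c = c₀ + t := by rw [ht]; ring
    rw [← ht] at hc ⊢
    rw [hct]
    obtain ⟨ht1, ht2⟩ := lin_tail (by linarith : (0 : ℝ) ≤ C) hq0 hq1 hbb hCE.summable_bb k n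
    rw [← hK₁, ← hL] at ht1
    rw [← hK₁] at ht2
    have hqk : q ^ (k + 1) ≤ Real.exp (-((1 / 2 - ε / 200) * X)) := by
      rw [hqpow, Real.exp_le_exp]
      have h3 : (χ - e) * ((k + 1 : ℕ) : ℝ) = ((k : ℝ) + 1) * (2 * χ) * (1 / 2 - ε / 200) := by
        rw [he]; push_cast; ring
      rw [h3]
      have h4 : 0 ≤ 1 / 2 - ε / 200 := by linarith
      linarith [mul_le_mul_of_nonneg_right hk2 h4]
    set Q : ℝ := Real.exp (-((1 / 2 - ε / 200) * X)) with hQ
    have ht1' : ‖L - ∑ j ∈ Finset.range (k + 1), bb d c₀ j‖ ≤ K₁ * Q :=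
      ht1.trans (by gcongr)
    have ht2' : ∑ i ∈ Finset.Ico k n, 1 / Pd d c₀ (i + 1) ≤ K₁ * Q := ht2.trans (by gcongr)
    have hrR : (1 + ‖L‖) * r < R / 2 := by
      have h3 : (2 * (1 + ‖L‖) + 1) * Real.exp (-((1 / 2 - ε / 8) * X)) ≤ 1 :=
        hsmall _ _ hK4 (by linarith)
      have h4 : r = R * Real.exp (-((1 / 2 - ε / 8) * X)) := by
        rw [hrexp, hR, ← Real.exp_add]; congr 1; ring
      have h5 : 2 * ((1 + ‖L‖) * r) < R := by
        calc 2 * ((1 + ‖L‖) * r) < (2 * (1 + ‖L‖) + 1) * r := by linarith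
          _ = R * ((2 * (1 + ‖L‖) + 1) * Real.exp (-((1 / 2 - ε / 8) * X))) := by
              rw [h4]; ring
          _ ≤ R * 1 := by gcongr
          _ = R := mul_one _
      linarith
    have hk' := lin_time_k h2 hd hPC hCE hR0 hrR hpassk ht1' hc
    have hLt : c₀ + L * t ∈ ball c₀ (S * r) := by
      rw [mem_ball, dist_eq_norm, add_sub_cancel_left, norm_mul]
      have h3 : ‖L‖ * ‖t‖ ≤ ‖L‖ * r := by gcongr
      have h4 : ‖L‖ * r < S * r := by
        apply mul_lt_mul_of_pos_right _ hr0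
        have := norm_nonneg L
        linarith
      linarith
    have hF := hCF c₀ hCE (S * r) k n hSr hkn hpassn c₀ (c₀ + t) (c₀ + L * t) (c₀ + t)
      (by rw [sub_self, norm_zero]; exact hSr.le)
      (by rw [add_sub_cancel_left]; exact hc.trans (le_mul_of_one_le_left hr0.le (by linarith))) hLt (mem_ball_self hSr)
    have hPk := hCE.Pd_pos k
    have h3 : ‖(f d c₀)^[k] (c₀ + L * t) - (f d (c₀ + t))^[k] (c₀ + t)‖ / Pd d c₀ k ≤
        4 * Ca * (1 + ‖L‖ ^ 2) * (r ^ 2 / R) + K₁ * Q * r := by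
      rw [div_le_iff₀ hPk]
      linarith
    have h4 : ‖c₀ - (c₀ + t)‖ ≤ r := by
      have : c₀ - (c₀ + t) = -t := by ring
      rw [this, norm_neg]; exact hc
    have hsumnn : 0 ≤ ∑ i ∈ Finset.Ico k n, 1 / Pd d c₀ (i + 1) :=
      Finset.sum_nonneg fun i _ => by have := hCE.Pd_pos (i + 1); positivity
    have h5 : r ^ 2 / R ≤ Real.exp (-((3 / 2 - ε / 8) * X)) := by
      rw [div_le_iff₀ hR0, hR, hrexp, ← Real.exp_nat_mul, ← Real.exp_add, Real.exp_le_exp]
      push_cast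
      linarith
    have h6 : Q * r ≤ Real.exp (-((3 / 2 - ε / 8) * X)) := by
      rw [hQ, hrexp, ← Real.exp_add, Real.exp_le_exp]
      linarith [mul_nonneg hε0.le hX0]
    have hQ0 : 0 < Q := Real.exp_pos _
    calc ‖(f d c₀)^[n] (c₀ + L * t) - (f d (c₀ + t))^[n] (c₀ + t)‖
        ≤ CF * Pd d c₀ n * ((4 * Ca * (1 + ‖L‖ ^ 2) * (r ^ 2 / R) + K₁ * Q * r) +
          r * (K₁ * Q)) := by
          refine hF.trans ?_
          gcongr
      _ = CF * Pd d c₀ n * (4 * Ca * (1 + ‖L‖ ^ 2) * (r ^ 2 / R) + 2 * K₁ * (Q * r)) := by ring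
      _ ≤ CF * (C * Real.exp ((1 - ε / 2) * X)) * (4 * Ca * (1 + ‖L‖ ^ 2) *
          Real.exp (-((3 / 2 - ε / 8) * X)) + 2 * K₁ * Real.exp (-((3 / 2 - ε / 8) * X))) := by
          gcongr
      _ = (CF * C * (4 * Ca * (1 + ‖L‖ ^ 2) + 2 * K₁) * Real.exp (-((ε + 3 * ε / 8) * X))) *
          Real.exp (-X * (1 / 2 - ε)) := by
          have e1 : Real.exp ((1 - ε / 2) * X) * Real.exp (-((3 / 2 - ε / 8) * X)) =
              Real.exp (-((ε + 3 * ε / 8) * X)) * Real.exp (-X * (1 / 2 - ε)) := by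
            rw [← Real.exp_add, ← Real.exp_add]; congr 1; ring
          linear_combination (CF * C * (4 * Ca * (1 + ‖L‖ ^ 2) + 2 * K₁)) * e1
      _ ≤ 1 * Real.exp (-X * (1 / 2 - ε)) := by
          gcongr
          exact hsmall _ _ hK5 (by linarith)
      _ = r ^ (1 / 2 - ε) := by rw [one_mul, hrpow]
  · intro c hc
    have hcS : ‖c - c₀‖ ≤ S * r := hc.trans (by gcongr; linarith)
    refine ⟨?_, hpos3 c c hcS (mem_ball_self hSr)⟩
    have h3 := hg c₀ hCE c (hc.trans hXg) n hJn (fun j hj =>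
      (hPC.pass c₀ hCE c (S * r) n hSr hcS hpassn c (mem_ball_self hSr) j hj).2.1)
    rw [P_succ_eq hd] at h3
    exact hPκ.trans h3
  · intro x hx
    have hxS : x ∈ ball c₀ (S * r) := by
      rw [mem_ball, dist_eq_norm]
      refine lt_of_le_of_lt hx ?_
      apply mul_lt_mul_of_pos_right _ hr0
      have := norm_nonneg L
      rw [hS]
      linarith
    have hc₀S : ‖c₀ - c₀‖ ≤ S * r := by rw [sub_self, norm_zero]; exact hSr.le
    refine ⟨?_, hpos3 c₀ x hc₀S hxS⟩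
    have h3 := (hPC.pass c₀ hCE c₀ (S * r) n hSr hc₀S hpassn x hxS n le_rfl).2.1
    exact hP2.trans h3

end Pool.Agent.N253.SM
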