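import Mathlib
import Pool.Agent.N253.SM.Stm
import Pool.Agent.Lev.J_schottky

/-!
# Project SM: Schottky for two consecutive functions without zeros, Taylor estimate
-/

set_option autoImplicit false

open Set Filter Metric Topology

namespace Pool.Agent.N253.SM

theorem t_SCHT : S_SCHT := by
  intro d c₀ hd hc₀
  have hc : 0 < ‖c₀‖ := norm_pos_iff.mpr hc₀
  obtain ⟨C, hC⟩ := Pool.Agent.Lev.J_schottky.main (4 ^ d * 2 / ‖c₀‖)
  set X : ℝ := max 1 (C * (3 / 2 * ‖c₀‖)) with hX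
  have hX1 : 1 ≤ X := le_max_left _ _
  refine ⟨X, hX1, ?_⟩
  intro a τ γ h hτ hγ hh hγc hh0 hh1 ha z hz
  have hγn : ∀ z ∈ ball a τ, ‖c₀‖ / 2 ≤ ‖γ z‖ ∧ ‖γ z‖ ≤ 3 / 2 * ‖c₀‖ := by
    intro z hz
    have h1 := hγc z hz
    have h2 := norm_sub_norm_le c₀ (γ z)
    have h3 := norm_sub_norm_le (γ z) c₀
    rw [norm_sub_rev] at h2
    constructor <;> linarith
  have hγ0 : ∀ z ∈ ball a τ, γ z ≠ 0 := by
    intro z hz h0
    have := (hγn z hz).1
    rw [h0, norm_zero] at this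
    linarith
  set G : ℂ → ℂ := fun z => -(h z) ^ d / γ z with hG
  have hGd : DifferentiableOn ℂ G (ball a τ) := ((hh.pow d).neg).div hγ hγ0
  have hG01 : ∀ z ∈ ball a τ, G z ≠ 0 ∧ G z ≠ 1 := by
    intro z hz
    refine ⟨div_ne_zero (neg_ne_zero.mpr (pow_ne_zero _ (hh0 z hz))) (hγ0 z hz), ?_⟩
    intro h3
    apply hh1 z hz
    have h4 : -(h z) ^ d / γ z = 1 := h3
    rw [div_eq_one_iff_eq (hγ0 z hz)] at h4
    linear_combination -h4
  have haa : a ∈ ball a τ := mem_ball_self hτ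
  have hGM : ‖G a‖ ≤ 4 ^ d * 2 / ‖c₀‖ := by
    show ‖-(h a) ^ d / γ a‖ ≤ _
    rw [norm_div, norm_neg, norm_pow]
    calc ‖h a‖ ^ d / ‖γ a‖ ≤ 4 ^ d / (‖c₀‖ / 2) := by
          gcongr
          exact (hγn a haa).1
      _ = _ := by field_simp
  have hb := hC G a τ hτ hGd hG01 hGM z hz
  have hz' : z ∈ ball a τ := ball_subset_ball (by linarith) hz
  have hhd : ‖h z‖ ^ d ≤ X := by
    have e : ‖h z‖ ^ d = ‖G z‖ * ‖γ z‖ := by
      show ‖h z‖ ^ d = ‖-(h z) ^ d / γ z‖ * ‖γ z‖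
      rw [norm_div, norm_neg, norm_pow, div_mul_cancel₀]
      exact norm_ne_zero_iff.mpr (hγ0 z hz')
    rw [e]
    refine le_trans ?_ (le_max_right _ _)
    exact mul_le_mul hb (hγn z hz').2 (norm_nonneg _) ((norm_nonneg _).trans hb)
  by_contra hcon
  rw [not_le] at hcon
  have h1 : X < ‖h z‖ ^ d := by
    calc X ≤ X ^ d := le_self_pow₀ hX1 (by omega)
      _ < ‖h z‖ ^ d := pow_lt_pow_left₀ hcon (by linarith) (by omega)
  linarith

theorem t_TAY : S_TAY := by
  intro G a R M hR hG hM z hz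
  have hz' : z ∈ ball a R := ball_subset_ball (by linarith) hz
  have haa : a ∈ ball a R := mem_ball_self hR
  have hM0 : 0 ≤ M := (norm_nonneg _).trans (hM a haa)
  have hmaps : MapsTo G (ball a R) (closedBall (G a) M) := fun w hw => by
    rw [mem_closedBall, dist_eq_norm]; exact hM w hw
  have hk : ∀ w ∈ ball a R, ‖dslope G a w‖ ≤ M / R := fun w hw =>
    Complex.norm_dslope_le_div_of_mapsTo_ball hG hmaps hw
  have hkd : DifferentiableOn ℂ (dslope G a) (ball a R) :=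
    (Complex.differentiableOn_dslope (isOpen_ball.mem_nhds haa)).mpr hG
  have hmaps2 : MapsTo (dslope G a) (ball a R) (closedBall (dslope G a a) (2 * (M / R))) := by
    intro w hw
    rw [mem_closedBall, dist_eq_norm]
    refine (norm_sub_le _ _).trans ?_
    linarith [hk w hw, hk a haa]
  have h1 := Complex.dist_le_div_mul_dist_of_mapsTo_ball hkd hmaps2 hz'
  rw [dslope_same, dist_eq_norm, dist_eq_norm] at h1
  have e : G z - G a - deriv G a * (z - a) = (z - a) * (dslope G a z - deriv G a) := by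
    have h2 : (z - a) • dslope G a z = G z - G a := sub_smul_dslope G a z
    rw [smul_eq_mul] at h2
    linear_combination -h2
  rw [e, norm_mul]
  calc ‖z - a‖ * ‖dslope G a z - deriv G a‖ ≤ ‖z - a‖ * (2 * (M / R) / R * ‖z - a‖) := by gcongr
    _ = 2 * M * (‖z - a‖ / R) ^ 2 := by field_simp
    _ ≤ 4 * M * (‖z - a‖ / R) ^ 2 := by
        have : 0 ≤ M * (‖z - a‖ / R) ^ 2 := by positivity
        nlinarith

end Pool.Agent.N253.SM
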