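import Mathlib
import Pool.Agent.N253.SM.Stm

/-!
# Project SM (subtask SM/ZF, helper833): Schwarz-Pick for functions without zeros
-/

set_option autoImplicit false

open Set Filter Metric Topology

namespace Pool.Agent.N253.SM

theorem exists_log_ball {a : ℂ} {τ : ℝ} {f : ℂ → ℂ} (hτ : 0 < τ)
    (hf : DifferentiableOn ℂ f (ball a τ)) (h0 : ∀ z ∈ ball a τ, f z ≠ 0) :
    ∃ g : ℂ → ℂ, DifferentiableOn ℂ g (ball a τ) ∧ ∀ z ∈ ball a τ, Complex.exp (g z) = f z := by
  have hd : DifferentiableOn ℂ (fun z => deriv f z / f z) (ball a τ) :=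
    (hf.deriv isOpen_ball).div hf h0
  obtain ⟨F, hF0, hF⟩ := hd.isExactOn_ball.with_val_at a (Complex.log (f a))
  have hFd : DifferentiableOn ℂ F (ball a τ) :=
    fun z hz => (hF z hz).differentiableAt.differentiableWithinAt
  refine ⟨F, hFd, fun z hz => ?_⟩
  have ha : a ∈ ball a τ := mem_ball_self hτ
  have hc : f z * Complex.exp (-F z) = f a * Complex.exp (-F a) := by
    refine isOpen_ball.is_const_of_deriv_eq_zero (convex_ball a τ).isPreconnected
      (f := fun z => f z * Complex.exp (-F z)) (hf.mul hFd.neg.cexp) ?_ hz ha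
    intro w hw
    have h1 : HasDerivAt f (deriv f w) w :=
      (hf.differentiableAt (isOpen_ball.mem_nhds hw)).hasDerivAt
    have h2 := h1.mul (hF w hw).neg.cexp
    rw [show (fun z => f z * Complex.exp (-F z)) = (f * fun z => Complex.exp (-F z)) from rfl]
    erw [h2.deriv]
    have := h0 w hw
    simp only [Pi.zero_apply]
    field_simp
    ring
  rw [hF0, Complex.exp_neg, Complex.exp_neg, Complex.exp_log (h0 a ha),
    mul_inv_cancel₀ (h0 a ha)] at hc
  have h3 := Complex.exp_ne_zero (F z)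
  field_simp at hc
  exact hc.symm

theorem zf (a : ℂ) (τ M : ℝ) (h : ℂ → ℂ) (hτ : 0 < τ) (hh : DifferentiableOn ℂ h (ball a τ))
    (h0 : ∀ z ∈ ball a τ, h z ≠ 0) (hM : ∀ z ∈ ball a τ, ‖h z‖ ≤ M) :
    τ * ‖deriv h a‖ ≤ 2 * ‖h a‖ * (1 + Real.log (M / ‖h a‖)) := by
  have ha : a ∈ ball a τ := mem_ball_self hτ
  obtain ⟨g, hg, hgh⟩ := exists_log_ball hτ hh h0
  have hha : 0 < ‖h a‖ := norm_pos_iff.2 (h0 a ha)
  have hM0 : 0 < M := hha.trans_le (hM a ha)
  have hre : ∀ z ∈ ball a τ, (g z).re = Real.log ‖h z‖ := by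
    intro z hz
    rw [← hgh z hz, Complex.norm_exp, Real.log_exp]
  have hre' : ∀ z ∈ ball a τ, (g z).re ≤ Real.log M := by
    intro z hz
    rw [hre z hz]
    exact Real.log_le_log (norm_pos_iff.2 (h0 z hz)) (hM z hz)
  set u : ℂ → ℂ := fun z => ((Real.log M + 1 : ℝ) : ℂ) - g z with hu
  have hud : DifferentiableOn ℂ u (ball a τ) := (differentiableOn_const _).sub hg
  have hur : ∀ z ∈ ball a τ, 1 ≤ (u z).re := by
    intro z hz
    have := hre' z hz
    simp only [hu, Complex.sub_re, Complex.ofReal_re]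
    linarith
  have hden : ∀ z ∈ ball a τ, u z + (starRingEnd ℂ) (u a) ≠ 0 := by
    intro z hz h1
    have h2 := congrArg Complex.re h1
    rw [Complex.add_re, Complex.conj_re, Complex.zero_re] at h2
    have := hur z hz
    have := hur a ha
    linarith
  set w : ℂ → ℂ := fun z => (u z - u a) / (u z + (starRingEnd ℂ) (u a)) with hw
  have hwd : DifferentiableOn ℂ w (ball a τ) :=
    (hud.sub (differentiableOn_const _)).div (hud.add (differentiableOn_const _)) hden
  have hwa : w a = 0 := by simp [hw]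
  have hmaps : MapsTo w (ball a τ) (ball (w a) 1) := by
    intro z hz
    rw [hwa, mem_ball_zero_iff]
    have h1 := norm_pos_iff.2 (hden z hz)
    simp only [hw, norm_div]
    rw [div_lt_one h1]
    rw [← sq_lt_sq₀ (norm_nonneg _) (norm_nonneg _), ← Complex.normSq_eq_norm_sq,
      ← Complex.normSq_eq_norm_sq, Complex.normSq_apply, Complex.normSq_apply]
    simp only [Complex.sub_re, Complex.sub_im, Complex.add_re, Complex.add_im, Complex.conj_re,
      Complex.conj_im]
    have h2 := hur z hz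
    have h3 := hur a ha
    nlinarith [mul_pos (lt_of_lt_of_le one_pos h2) (lt_of_lt_of_le one_pos h3)]
  have hsch := Complex.norm_deriv_le_div_of_mapsTo_ball hwd
    (hmaps.mono_right ball_subset_closedBall) hτ
  have hga : HasDerivAt g (deriv g a) a := (hg.differentiableAt (isOpen_ball.mem_nhds ha)).hasDerivAt
  have hua : HasDerivAt u (-deriv g a) a := hga.const_sub _
  have hwda : HasDerivAt w (-deriv g a / (u a + (starRingEnd ℂ) (u a))) a := by
    have h1 := (hua.sub_const (u a)).div (hua.add_const ((starRingEnd ℂ) (u a))) (hden a ha)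
    have h2 : (-deriv g a * (u a + (starRingEnd ℂ) (u a)) - (u a - u a) * -deriv g a) /
        (u a + (starRingEnd ℂ) (u a)) ^ 2 = -deriv g a / (u a + (starRingEnd ℂ) (u a)) := by
      rw [sub_self, zero_mul, sub_zero, sq, mul_div_mul_right _ _ (hden a ha)]
    rw [h2] at h1
    exact h1
  have hdn : ‖u a + (starRingEnd ℂ) (u a)‖ = 2 * (u a).re := by
    have := hur a ha
    rw [Complex.add_conj, Complex.norm_real, Real.norm_of_nonneg (by linarith)]
  rw [hwda.deriv, norm_div, norm_neg, hdn] at hsch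
  have hua1 := hur a ha
  have h5 : τ * ‖deriv g a‖ ≤ 2 * (u a).re := by
    rw [div_le_div_iff₀ (by linarith) hτ] at hsch
    linarith
  have h6 : (u a).re = 1 + Real.log (M / ‖h a‖) := by
    rw [Real.log_div hM0.ne' hha.ne', ← hre a ha]
    simp only [hu, Complex.sub_re, Complex.ofReal_re]
    ring
  have h7 : HasDerivAt h (h a * deriv g a) a := by
    have h8 := hga.cexp
    rw [hgh a ha] at h8
    refine h8.congr_of_eventuallyEq ?_
    filter_upwards [isOpen_ball.mem_nhds ha] with z hz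
    exact (hgh z hz).symm
  rw [h7.deriv, norm_mul, ← h6]
  calc τ * (‖h a‖ * ‖deriv g a‖) = ‖h a‖ * (τ * ‖deriv g a‖) := by ring
    _ ≤ ‖h a‖ * (2 * (u a).re) := mul_le_mul_of_nonneg_left h5 hha.le
    _ = 2 * ‖h a‖ * (u a).re := by ring

theorem t_ZF : S_ZF := fun a τ M h hτ hh h0 hM => zf a τ M h hτ hh h0 hM

end Pool.Agent.N253.SM
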